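import Pool.Agent.Lib.NLB.DefNum

/-!
MP_00e23e_nt, project NL, chapter B, module NumN: the numbers of the module BinN (helper3).
-/

set_option autoImplicit false

namespace Pool.Agent.Lib.NLB

open Finset Pool.Agent.Lib.EH3 Pool.Agent.Lib.TB Pool.Agent.Results.MP_00e23e_nt Pool.Agent.Lib.MI
open Pool.Agent.Lib.MX (Bd Mz Bd_nonneg Bd_mono rp_le rn_le log_le_T Tau_x)

private lemma NumN_big (a L : ℝ) (ha : 0 < a) (hL : 1 ≤ L) :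
    ∃ x0 : ℝ, 1 ≤ x0 ∧ ∀ x : ℝ, x0 ≤ x → L ≤ x ^ a := by
  have hL0 : 0 ≤ L := by linarith
  refine ⟨L ^ (1 / a), Real.one_le_rpow hL (by positivity), ?_⟩
  intro x hx
  have h1 : (L ^ (1 / a)) ^ a ≤ x ^ a := Real.rpow_le_rpow (by positivity) hx ha.le
  rwa [← Real.rpow_mul hL0, one_div_mul_cancel ha.ne', Real.rpow_one] at h1

/-- sizes of R, S, N, R0 -/
private lemma NumN_size (δ κ ε x : ℝ) (g M N R S R0 : ℕ) (hε : 1000000 * ε ≤ 1) (hε0 : 0 < ε) (hκ : 0 < κ) (hκε : κ ≤ ε)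
    (hx : 1 ≤ x) (h64 : 64 ≤ x ^ ((1 : ℝ) / 2560)) (hB : BlkN δ κ ε x M N R S)
    (hg : (g : ℝ) ≤ x ^ (8 * ε)) (hR0 : x ^ ((1 : ℝ) / 80) ≤ 2 * (R0 : ℝ)) (hR0' : (R0 : ℝ) ≤ x ^ ((1 : ℝ) / 80 + κ)) :
    2 ≤ R ∧ 1 ≤ N ∧ 1 ≤ R0 ∧ R0 ≤ R ∧ R ≤ N ∧ (R : ℝ) ^ 2 * g ≤ (N : ℝ) ^ 2 ∧ (R : ℝ) * g ≤ N * x ^ (-(2 * ε)) ∧
      x ^ ((1 : ℝ) / 10) ≤ 4 * S := by
  obtain ⟨⟨hN1, hN2, hMN1, hMN2⟩, hS1, hR1, hR2, hRS1, hRS2⟩ := hB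
  have hx0 : 0 < x := by linarith
  have hNpos : (0 : ℝ) < N := lt_of_lt_of_le (Real.rpow_pos_of_pos hx0 _) hN1
  have hN : 1 ≤ N := by exact_mod_cast hNpos
  have hR0pos : (0 : ℝ) < R0 := by
    have := Real.rpow_pos_of_pos hx0 ((1 : ℝ) / 80)
    linarith
  have hR01 : 1 ≤ R0 := by exact_mod_cast hR0pos
  have a1 : x ^ ((1 : ℝ) / 60 - 12 * ε) ≤ 2 * (R : ℝ) := by
    have b1 : x ^ ((1 : ℝ) / 60 - ε) * x ^ (-(10 * ε) - κ) ≤ N * x ^ (-(10 * ε) - κ) :=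
      mul_le_mul_of_nonneg_right hN1 (Real.rpow_nonneg hx0.le _)
    rw [← Real.rpow_add hx0] at b1
    have b2 : x ^ ((1 : ℝ) / 60 - 12 * ε) ≤ x ^ ((1 : ℝ) / 60 - ε + (-(10 * ε) - κ)) :=
      Real.rpow_le_rpow_of_exponent_le hx (by linarith)
    linarith
  have a2 : x ^ ((1 : ℝ) / 2560) * x ^ ((1 : ℝ) / 80 + κ) ≤ x ^ ((1 : ℝ) / 60 - 12 * ε) := by
    rw [← Real.rpow_add hx0]
    exact Real.rpow_le_rpow_of_exponent_le hx (by linarith)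
  have a3 : 1 ≤ x ^ ((1 : ℝ) / 80 + κ) := Real.one_le_rpow hx (by linarith)
  have a4 : 64 * x ^ ((1 : ℝ) / 80 + κ) ≤ 2 * (R : ℝ) := by
    have : 64 * x ^ ((1 : ℝ) / 80 + κ) ≤ x ^ ((1 : ℝ) / 2560) * x ^ ((1 : ℝ) / 80 + κ) :=
      mul_le_mul_of_nonneg_right h64 (by linarith)
    linarith
  have hR2' : 2 ≤ R := by
    have : (2 : ℝ) ≤ R := by linarith
    exact_mod_cast this
  have hR0R : R0 ≤ R := by
    have : (R0 : ℝ) ≤ R := by linarith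
    exact_mod_cast this
  have a5 : x ^ (-(10 * ε)) ≤ 1 := Real.rpow_le_one_of_one_le_of_nonpos hx (by linarith)
  have hRN : (R : ℝ) ≤ N := hR1.trans (mul_le_of_le_one_right hNpos.le a5)
  have hRN' : R ≤ N := by exact_mod_cast hRN
  have hg0 : (0 : ℝ) ≤ g := Nat.cast_nonneg _
  have a6 : (R : ℝ) * g ≤ N * x ^ (-(2 * ε)) := by
    calc (R : ℝ) * g ≤ (N * x ^ (-(10 * ε))) * x ^ (8 * ε) :=
          mul_le_mul hR1 hg hg0 (mul_nonneg hNpos.le (Real.rpow_nonneg hx0.le _))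
      _ = N * (x ^ (-(10 * ε)) * x ^ (8 * ε)) := by ring
      _ = N * x ^ (-(2 * ε)) := by
          rw [← Real.rpow_add hx0]
          congr 2
          ring
  have a7 : x ^ (-(2 * ε)) ≤ 1 := Real.rpow_le_one_of_one_le_of_nonpos hx (by linarith)
  have a8 : (R : ℝ) ^ 2 * g ≤ (N : ℝ) ^ 2 := by
    have : (R : ℝ) * g ≤ N := a6.trans (mul_le_of_le_one_right hNpos.le a7)
    calc (R : ℝ) ^ 2 * g = R * (R * g) := by ring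
      _ ≤ N * N := mul_le_mul hRN this (by positivity) hNpos.le
      _ = (N : ℝ) ^ 2 := by ring
  refine ⟨hR2', hN, hR01, hR0R, hRN', a8, a6, ?_⟩
  have a9 : (R : ℝ) ≤ x ^ ((2 : ℝ) / 5 - 9 * ε) := by
    calc (R : ℝ) ≤ N * x ^ (-(10 * ε)) := hR1
      _ ≤ x ^ ((2 : ℝ) / 5 + ε) * x ^ (-(10 * ε)) := mul_le_mul_of_nonneg_right hN2 (Real.rpow_nonneg hx0.le _)
      _ = x ^ ((2 : ℝ) / 5 - 9 * ε) := by
          rw [← Real.rpow_add hx0]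
          congr 1
          ring
  have hS0 : (0 : ℝ) ≤ S := Nat.cast_nonneg _
  have a10 : x ^ ((1 : ℝ) / 10) * x ^ ((2 : ℝ) / 5 - 9 * ε) ≤ (4 * S) * x ^ ((2 : ℝ) / 5 - 9 * ε) := by
    calc x ^ ((1 : ℝ) / 10) * x ^ ((2 : ℝ) / 5 - 9 * ε) = x ^ ((1 : ℝ) / 2 - 9 * ε) := by
          rw [← Real.rpow_add hx0]
          congr 1
          ring
      _ ≤ x ^ (1 / 2 - ε / 2) := Real.rpow_le_rpow_of_exponent_le hx (by linarith)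
      _ ≤ 4 * ((R : ℝ) * S) := hRS2
      _ = (4 * S) * R := by ring
      _ ≤ (4 * S) * x ^ ((2 : ℝ) / 5 - 9 * ε) := mul_le_mul_of_nonneg_left a9 (by positivity)
  exact le_of_mul_le_mul_right a10 (Real.rpow_pos_of_pos hx0 _)

private lemma NumN_30 (t X : ℝ) (ht : 2 ≤ t) (h : t ^ 12 ≤ X) : 4 * t ≤ X := by
  have h1 : (2 : ℝ) ^ 11 ≤ t ^ 11 := pow_le_pow_left₀ (by norm_num) ht 11
  have h2 : t ^ 12 = t ^ 11 * t := by ring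
  have h3 : (4 : ℝ) * t ≤ t ^ 11 * t := mul_le_mul_of_nonneg_right (by linarith) (by linarith)
  linarith

/-- the saving -/
private lemma NumN_ep (θ x : ℝ) (g R N R0 : ℕ) (hθ : 0 < θ) (hθ1 : θ ≤ 1 / 1280) (hx : 1 ≤ x)
    (h64 : 64 ≤ x ^ ((1 : ℝ) / 2560)) (hg : 1 ≤ g) (hR : 1 ≤ R) (hRg : (R : ℝ) ^ 2 * g ≤ (N : ℝ) ^ 2)
    (hR0 : x ^ ((1 : ℝ) / 80) ≤ 2 * (R0 : ℝ)) :
    x ^ (-θ) ≤ epn θ x g R N R0 ∧ epn θ x g R N R0 ≤ 6 * x ^ (-θ) ∧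
      (⌊x ^ ((1 : ℝ) / 320)⌋₊ : ℝ) ≤ Qn g R N R0 := by
  have hx0 : 0 < x := by linarith
  have hgR : (0 : ℝ) < g * (R : ℝ) ^ 2 := by
    have h1 : (0 : ℝ) < g := by exact_mod_cast hg
    have h2 : (0 : ℝ) < R := by exact_mod_cast hR
    positivity
  have hR0p : (0 : ℝ) < R0 := by
    have := Real.rpow_pos_of_pos hx0 ((1 : ℝ) / 80)
    linarith
  have q1 : (R0 : ℝ) ≤ Qn g R N R0 := by
    unfold Qn
    rw [le_div_iff₀ hgR]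
    calc (R0 : ℝ) * (g * (R : ℝ) ^ 2) = ((R : ℝ) ^ 2 * g) * R0 := by ring
      _ ≤ (N : ℝ) ^ 2 * R0 := mul_le_mul_of_nonneg_right hRg hR0p.le
  have q0 : 0 < Qn g R N R0 := lt_of_lt_of_le hR0p q1
  set t : ℝ := x ^ ((1 : ℝ) / 320) with ht
  have t1 : 64 ≤ t := by
    have : x ^ ((1 : ℝ) / 2560) ≤ t := Real.rpow_le_rpow_of_exponent_le hx (by norm_num)
    linarith
  have t0 : 0 < t := by linarith
  have hf1 : (⌊t⌋₊ : ℝ) ≤ t := Nat.floor_le t0.le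
  have hf2 : t / 2 ≤ (⌊t⌋₊ : ℝ) := by
    have := Nat.lt_floor_add_one t
    linarith
  have hf0 : (0 : ℝ) < (⌊t⌋₊ : ℝ) := by linarith
  -- exponents
  have e1 : 1 / t ≤ x ^ (-θ) := by
    have : 1 / t = x ^ (-((1 : ℝ) / 320)) := by rw [Real.rpow_neg hx0.le, one_div]
    rw [this]
    exact Real.rpow_le_rpow_of_exponent_le hx (by linarith)
  have e2 : 1 / (⌊t⌋₊ : ℝ) ≤ 2 * x ^ (-θ) := by
    have : 1 / (⌊t⌋₊ : ℝ) ≤ 1 / (t / 2) := one_div_le_one_div_of_le (by linarith) hf2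
    have h2 : 1 / (t / 2) = 2 * (1 / t) := by field_simp
    linarith
  have e3 : t * x ^ (-θ) ≤ x ^ ((1 : ℝ) / 320) := by
    have : x ^ (-θ) ≤ 1 := Real.rpow_le_one_of_one_le_of_nonpos hx (by linarith)
    exact mul_le_of_le_one_right t0.le this
  have e4 : (⌊t⌋₊ : ℝ) / Qn g R N R0 ≤ 2 * x ^ (-θ) := by
    rw [div_le_iff₀ q0]
    have h2 : t ≤ x ^ ((1 : ℝ) / 80) * x ^ (-θ) := by
      rw [← Real.rpow_add hx0]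
      exact Real.rpow_le_rpow_of_exponent_le hx (by linarith)
    have hnn : 0 ≤ x ^ (-θ) := Real.rpow_nonneg hx0.le _
    calc (⌊t⌋₊ : ℝ) ≤ t := hf1
      _ ≤ x ^ ((1 : ℝ) / 80) * x ^ (-θ) := h2
      _ ≤ (2 * (R0 : ℝ)) * x ^ (-θ) := mul_le_mul_of_nonneg_right hR0 hnn
      _ ≤ (2 * Qn g R N R0) * x ^ (-θ) := mul_le_mul_of_nonneg_right (by linarith) hnn
      _ = 2 * x ^ (-θ) * Qn g R N R0 := by ring
  have n1 : 0 ≤ 1 / (⌊t⌋₊ : ℝ) := by positivity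
  have n2 : 0 ≤ 1 / t := by positivity
  have n3 : 0 ≤ (⌊t⌋₊ : ℝ) / Qn g R N R0 := by positivity
  unfold epn
  refine ⟨by linarith, by linarith, ?_⟩
  have h2 : 2 * t ≤ x ^ ((1 : ℝ) / 80) := by
    have h3 : x ^ ((1 : ℝ) / 2560) * t ≤ x ^ ((1 : ℝ) / 80) := by
      rw [ht, ← Real.rpow_add hx0]
      exact Real.rpow_le_rpow_of_exponent_le hx (by norm_num)
    have h4 : 64 * t ≤ x ^ ((1 : ℝ) / 2560) * t := mul_le_mul_of_nonneg_right h64 t0.le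
    linarith
  linarith

/-- the last inequality -/
private lemma NumN_fin (κ ε θ x E : ℝ) (S R0 : ℕ) (hκ : 0 < κ) (hκε : κ ≤ ε) (_hθ : 0 < θ) (hθ1 : θ ≤ 1 / 1280)
    (hε : 1000 * ε ≤ θ) (hx : 1 ≤ x) (hE1 : x ^ (-θ) ≤ E) (hE2 : E ≤ 6 * x ^ (-θ)) (hS : x ^ ((1 : ℝ) / 10) ≤ 4 * S)
    (hR0' : (R0 : ℝ) ≤ x ^ ((1 : ℝ) / 80 + κ)) :
    ((⌊x ^ κ⌋₊ + 1 : ℕ) : ℝ) ^ 2 * ((R0 : ℝ) * Real.sqrt (x ^ ((1 : ℝ) / 80)) / (E * (S : ℝ) ^ 2) + E) ≤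
      100 * x ^ (-(30 * ε)) := by
  have hx0 : 0 < x := by linarith
  have hθp : 0 < x ^ (-θ) := Real.rpow_pos_of_pos hx0 _
  have hEp : 0 < E := lt_of_lt_of_le hθp hE1
  have h10 : 0 < x ^ ((1 : ℝ) / 10) := Real.rpow_pos_of_pos hx0 _
  have hS0 : (0 : ℝ) < S := by linarith
  have s1 : x ^ ((1 : ℝ) / 5) ≤ 16 * (S : ℝ) ^ 2 := by
    calc x ^ ((1 : ℝ) / 5) = x ^ ((1 : ℝ) / 10) * x ^ ((1 : ℝ) / 10) := by
          rw [← Real.rpow_add hx0]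
          norm_num
      _ ≤ (4 * S) * (4 * S) := mul_le_mul hS hS h10.le (by positivity)
      _ = 16 * (S : ℝ) ^ 2 := by ring
  have s2 : Real.sqrt (x ^ ((1 : ℝ) / 80)) = x ^ ((1 : ℝ) / 160) := by
    rw [Real.sqrt_eq_rpow, ← Real.rpow_mul hx0.le]
    norm_num
  have s3 : (R0 : ℝ) * x ^ ((1 : ℝ) / 160) / (E * (S : ℝ) ^ 2) ≤ 16 * x ^ (-θ) := by
    rw [div_le_iff₀ (by positivity)]
    calc (R0 : ℝ) * x ^ ((1 : ℝ) / 160) ≤ x ^ ((1 : ℝ) / 80 + κ) * x ^ ((1 : ℝ) / 160) :=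
          mul_le_mul_of_nonneg_right hR0' (Real.rpow_nonneg hx0.le _)
      _ = x ^ ((1 : ℝ) / 80 + κ + 1 / 160) := by rw [← Real.rpow_add hx0]
      _ ≤ x ^ (-θ + -θ + (1 : ℝ) / 5) := Real.rpow_le_rpow_of_exponent_le hx (by linarith)
      _ = x ^ (-θ) * (x ^ (-θ) * x ^ ((1 : ℝ) / 5)) := by
          rw [Real.rpow_add hx0, Real.rpow_add hx0]
          ring
      _ ≤ x ^ (-θ) * (E * (16 * (S : ℝ) ^ 2)) :=
          mul_le_mul_of_nonneg_left (mul_le_mul hE1 s1 (Real.rpow_nonneg hx0.le _) hEp.le) hθp.le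
      _ = 16 * x ^ (-θ) * (E * (S : ℝ) ^ 2) := by ring
  have k1 : 1 ≤ x ^ κ := Real.one_le_rpow hx hκ.le
  have k2 : ((⌊x ^ κ⌋₊ + 1 : ℕ) : ℝ) ≤ 2 * x ^ κ := by
    push_cast
    have := Nat.floor_le (by linarith : (0 : ℝ) ≤ x ^ κ)
    linarith
  have k3 : ((⌊x ^ κ⌋₊ + 1 : ℕ) : ℝ) ^ 2 ≤ 4 * x ^ (2 * κ) := by
    calc ((⌊x ^ κ⌋₊ + 1 : ℕ) : ℝ) ^ 2 ≤ (2 * x ^ κ) ^ 2 := pow_le_pow_left₀ (Nat.cast_nonneg _) k2 2
      _ = 4 * (x ^ κ * x ^ κ) := by ring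
      _ = 4 * x ^ (2 * κ) := by
          rw [← Real.rpow_add hx0]
          congr 2
          ring
  rw [s2]
  have k4 : (R0 : ℝ) * x ^ ((1 : ℝ) / 160) / (E * (S : ℝ) ^ 2) + E ≤ 22 * x ^ (-θ) := by linarith
  have k5 : 0 ≤ (R0 : ℝ) * x ^ ((1 : ℝ) / 160) / (E * (S : ℝ) ^ 2) + E := by positivity
  calc ((⌊x ^ κ⌋₊ + 1 : ℕ) : ℝ) ^ 2 * ((R0 : ℝ) * x ^ ((1 : ℝ) / 160) / (E * (S : ℝ) ^ 2) + E)
      ≤ (4 * x ^ (2 * κ)) * (22 * x ^ (-θ)) := mul_le_mul k3 k4 k5 (by positivity)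
    _ = 88 * x ^ (2 * κ + -θ) := by
        rw [Real.rpow_add hx0]
        ring
    _ ≤ 88 * x ^ (-(30 * ε)) :=
        mul_le_mul_of_nonneg_left (Real.rpow_le_rpow_of_exponent_le hx (by linarith)) (by norm_num)
    _ ≤ 100 * x ^ (-(30 * ε)) := mul_le_mul_of_nonneg_right (by norm_num) (Real.rpow_nonneg hx0.le _)

/-- the conditions of the far pairs -/
private lemma NumN_far (δ ε x C2 : ℝ) (g H N R S R0 k : ℕ) (hk : k = 2000) (hδ : δ ≤ ε)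
    (hε : 1000000 * ε ≤ 1) (hε0 : 0 < ε) (hx : 1 ≤ x) (hC2 : 1 ≤ C2)
    (h64 : 64 ≤ x ^ ((1 : ℝ) / 2560)) (hC : C2 ≤ x ^ ((1 : ℝ) / 2560)) (hR : 1 ≤ R)
    (hRg : (R : ℝ) ^ 2 * g ≤ (N : ℝ) ^ 2) (hg : (g : ℝ) ≤ x ^ (8 * ε)) (hH : (H : ℝ) ≤ x ^ (31 * ε))
    (hR0 : x ^ ((1 : ℝ) / 80) ≤ 2 * (R0 : ℝ)) (hR01 : 1 ≤ R0) (hRS : (R : ℝ) * S ≤ x ^ (1 / 2 + δ)) :
    4 * (x ^ ((1 : ℝ) / 320)) ^ 2 * (R : ℝ) ^ 2 * g ≤ R0 * (N : ℝ) ^ 2 ∧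
    C2 * ((x ^ ((1 : ℝ) / 320)) ^ 2 * (x ^ ((1 : ℝ) / 1280)) ^ 2 * (g : ℝ) ^ 2 * (H : ℝ) ^ 4) ≤ x ^ ((1 : ℝ) / 80) ∧
    C2 * (x ^ ((1 : ℝ) / 1280) * x ^ ((1 : ℝ) / 2560)) ^ 2 ≤ x ^ ((1 : ℝ) / 320) ∧
    64 * (R : ℝ) ^ 2 * (S : ℝ) ^ 4 ≤
      (R0 : ℝ) * (x ^ ((1 : ℝ) / 320) / (C2 * (x ^ ((1 : ℝ) / 1280) * x ^ ((1 : ℝ) / 2560)))) ^ k := by
  have hx0 : 0 < x := by linarith
  have pw : ∀ (a : ℝ) (n : ℕ), (x ^ a) ^ n = x ^ (a * n) := fun a n => (Real.rpow_mul_natCast hx0.le a n).symm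
  refine ⟨?_, ?_, ?_, ?_⟩
  · have h1 : 8 * (x ^ ((1 : ℝ) / 320)) ^ 2 ≤ 2 * (R0 : ℝ) := by
      rw [pw]
      calc 8 * x ^ ((1 : ℝ) / 320 * ((2 : ℕ) : ℝ)) ≤ x ^ ((1 : ℝ) / 2560) * x ^ ((1 : ℝ) / 320 * ((2 : ℕ) : ℝ)) :=
            mul_le_mul_of_nonneg_right (by linarith) (Real.rpow_nonneg hx0.le _)
        _ = x ^ ((1 : ℝ) / 2560 + (1 : ℝ) / 320 * ((2 : ℕ) : ℝ)) := by rw [← Real.rpow_add hx0]
        _ ≤ x ^ ((1 : ℝ) / 80) := Real.rpow_le_rpow_of_exponent_le hx (by norm_num)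
        _ ≤ 2 * (R0 : ℝ) := hR0
    calc 4 * (x ^ ((1 : ℝ) / 320)) ^ 2 * (R : ℝ) ^ 2 * g = (4 * (x ^ ((1 : ℝ) / 320)) ^ 2) * ((R : ℝ) ^ 2 * g) := by ring
      _ ≤ R0 * (N : ℝ) ^ 2 := mul_le_mul (by linarith) hRg (by positivity) (by positivity)
  · have g2 : (g : ℝ) ^ 2 ≤ x ^ (16 * ε) := by
      calc (g : ℝ) ^ 2 ≤ (x ^ (8 * ε)) ^ 2 := pow_le_pow_left₀ (Nat.cast_nonneg _) hg 2
        _ = x ^ (16 * ε) := by
            rw [pw]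
            congr 1
            push_cast
            ring
    have H4 : (H : ℝ) ^ 4 ≤ x ^ (124 * ε) := by
      calc (H : ℝ) ^ 4 ≤ (x ^ (31 * ε)) ^ 4 := pow_le_pow_left₀ (Nat.cast_nonneg _) hH 4
        _ = x ^ (124 * ε) := by
            rw [pw]
            congr 1
            push_cast
            ring
    rw [pw, pw]
    calc C2 * (x ^ ((1 : ℝ) / 320 * ((2 : ℕ) : ℝ)) * x ^ ((1 : ℝ) / 1280 * ((2 : ℕ) : ℝ)) * (g : ℝ) ^ 2 * (H : ℝ) ^ 4)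
        ≤ x ^ ((1 : ℝ) / 2560) * (x ^ ((1 : ℝ) / 320 * ((2 : ℕ) : ℝ)) * x ^ ((1 : ℝ) / 1280 * ((2 : ℕ) : ℝ)) *
          x ^ (16 * ε) * x ^ (124 * ε)) := by
          refine mul_le_mul hC ?_ (by positivity) (Real.rpow_nonneg hx0.le _)
          refine mul_le_mul ?_ H4 (by positivity) (by positivity)
          exact mul_le_mul_of_nonneg_left g2 (by positivity)
      _ = x ^ ((1 : ℝ) / 2560 + ((1 : ℝ) / 320 * ((2 : ℕ) : ℝ) + (1 : ℝ) / 1280 * ((2 : ℕ) : ℝ) + 16 * ε + 124 * ε)) := by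
          rw [Real.rpow_add hx0, Real.rpow_add hx0, Real.rpow_add hx0, Real.rpow_add hx0]
      _ ≤ x ^ ((1 : ℝ) / 80) := Real.rpow_le_rpow_of_exponent_le hx (by push_cast; linarith)
  · rw [← Real.rpow_add hx0, pw]
    calc C2 * x ^ (((1 : ℝ) / 1280 + 1 / 2560) * ((2 : ℕ) : ℝ)) ≤
          x ^ ((1 : ℝ) / 2560) * x ^ (((1 : ℝ) / 1280 + 1 / 2560) * ((2 : ℕ) : ℝ)) :=
          mul_le_mul_of_nonneg_right hC (Real.rpow_nonneg hx0.le _)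
      _ = x ^ ((1 : ℝ) / 2560 + ((1 : ℝ) / 1280 + 1 / 2560) * ((2 : ℕ) : ℝ)) := by rw [← Real.rpow_add hx0]
      _ ≤ x ^ ((1 : ℝ) / 320) := Real.rpow_le_rpow_of_exponent_le hx (by norm_num)
  · have hR1 : (1 : ℝ) ≤ R := by exact_mod_cast hR
    have hS0 : (0 : ℝ) ≤ S := Nat.cast_nonneg _
    have hR0r : (1 : ℝ) ≤ R0 := by exact_mod_cast hR01
    have b1 : (S : ℝ) ≤ x ^ (1 / 2 + δ) := by
      have : (S : ℝ) ≤ R * S := le_mul_of_one_le_left hS0 hR1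
      linarith
    have b2 : (R : ℝ) ^ 2 * (S : ℝ) ^ 4 ≤ x ^ (2 + 4 * δ) := by
      calc (R : ℝ) ^ 2 * (S : ℝ) ^ 4 = ((R : ℝ) * S) ^ 2 * (S : ℝ) ^ 2 := by ring
        _ ≤ (x ^ (1 / 2 + δ)) ^ 2 * (x ^ (1 / 2 + δ)) ^ 2 :=
            mul_le_mul (pow_le_pow_left₀ (by positivity) hRS 2) (pow_le_pow_left₀ hS0 b1 2) (by positivity) (by positivity)
        _ = x ^ (2 + 4 * δ) := by
            rw [pw, ← Real.rpow_add hx0]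
            congr 1
            push_cast
            ring
    have b3 : x ^ ((1 : ℝ) / 640) ≤
        x ^ ((1 : ℝ) / 320) / (C2 * (x ^ ((1 : ℝ) / 1280) * x ^ ((1 : ℝ) / 2560))) := by
      rw [le_div_iff₀ (by positivity)]
      calc x ^ ((1 : ℝ) / 640) * (C2 * (x ^ ((1 : ℝ) / 1280) * x ^ ((1 : ℝ) / 2560)))
          ≤ x ^ ((1 : ℝ) / 640) * (x ^ ((1 : ℝ) / 2560) * (x ^ ((1 : ℝ) / 1280) * x ^ ((1 : ℝ) / 2560))) := by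
            refine mul_le_mul_of_nonneg_left ?_ (Real.rpow_nonneg hx0.le _)
            exact mul_le_mul_of_nonneg_right hC (by positivity)
        _ = x ^ ((1 : ℝ) / 640 + ((1 : ℝ) / 2560 + ((1 : ℝ) / 1280 + (1 : ℝ) / 2560))) := by
            rw [Real.rpow_add hx0, Real.rpow_add hx0, Real.rpow_add hx0]
        _ ≤ x ^ ((1 : ℝ) / 320) := Real.rpow_le_rpow_of_exponent_le hx (by norm_num)
    have b4 : x ^ ((25 : ℝ) / 8) ≤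
        (x ^ ((1 : ℝ) / 320) / (C2 * (x ^ ((1 : ℝ) / 1280) * x ^ ((1 : ℝ) / 2560)))) ^ k := by
      calc x ^ ((25 : ℝ) / 8) = (x ^ ((1 : ℝ) / 640)) ^ k := by
            rw [pw, hk]
            congr 1
            norm_num
        _ ≤ _ := pow_le_pow_left₀ (Real.rpow_nonneg hx0.le _) b3 k
    calc 64 * (R : ℝ) ^ 2 * (S : ℝ) ^ 4 = 64 * ((R : ℝ) ^ 2 * (S : ℝ) ^ 4) := by ring
      _ ≤ x ^ ((1 : ℝ) / 2560) * x ^ (2 + 4 * δ) := mul_le_mul h64 b2 (by positivity) (Real.rpow_nonneg hx0.le _)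
      _ = x ^ ((1 : ℝ) / 2560 + (2 + 4 * δ)) := by rw [← Real.rpow_add hx0]
      _ ≤ x ^ ((25 : ℝ) / 8) := Real.rpow_le_rpow_of_exponent_le hx (by linarith)
      _ ≤ _ := b4
      _ ≤ _ := le_mul_of_one_le_left (by positivity) hR0r

private lemma NumN_th (k : ℕ) : ((1 : ℝ) / 1280 / 2 ^ (k + 1)) * ((2 ^ (k + 1) : ℕ) : ℝ) = 1 / 1280 := by
  have h : (0 : ℝ) < 2 ^ (k + 1) := by positivity
  push_cast
  exact div_mul_cancel₀ _ h.ne'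

theorem tNumN : NumNStmt := by
  obtain ⟨k, hk⟩ : ∃ k : ℕ, k = 2000 := ⟨2000, rfl⟩
  obtain ⟨θ, hθ⟩ : ∃ θ : ℝ, θ = (1 : ℝ) / 1280 / 2 ^ (k + 1) := ⟨_, rfl⟩
  have h2k : (1 : ℝ) ≤ 2 ^ (k + 1) := one_le_pow₀ (by norm_num)
  have hθ0 : 0 < θ := by rw [hθ]; positivity
  have hθ1 : θ ≤ 1 / 1280 := by
    rw [hθ]
    exact div_le_self (by norm_num) h2k
  have hθk : θ * ((2 ^ (k + 1) : ℕ) : ℝ) = 1 / 1280 := by rw [hθ]; exact NumN_th k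
  refine ⟨k, θ, θ / 1000, hθ0, by positivity, ?_⟩
  intro δ κ ε C2 hεe hPar hC2
  obtain ⟨⟨hδ0, hδ⟩, ⟨hκ0, hκ⟩, hε5⟩ := hPar
  have hε0 : 0 < ε := by linarith
  have hεθ : 1000 * ε ≤ θ := by linarith
  have hε6 : 1000000 * ε ≤ 1 := by linarith
  obtain ⟨x1, hx1, hb1⟩ := NumN_big ((1 : ℝ) / 2560) (max C2 64) (by norm_num) (le_trans hC2 (le_max_left _ _))
  obtain ⟨x2, hx2, hb2⟩ := NumN_big (2 * ε) 2 (by linarith) (by norm_num)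
  refine ⟨max x1 x2, le_trans hx1 (le_max_left _ _), ?_⟩
  intro x g H M N R S R0 hx hB hR hg hg8 hH hH31 hR0 hR0' h12
  have hx1' : x1 ≤ x := le_trans (le_max_left _ _) hx
  have hx2' : x2 ≤ x := le_trans (le_max_right _ _) hx
  have hxx : 1 ≤ x := hx1.trans hx1'
  have hx0 : 0 < x := by linarith
  have hbb := hb1 x hx1'
  have h64 : 64 ≤ x ^ ((1 : ℝ) / 2560) := (le_max_right _ _).trans hbb
  have hC : C2 ≤ x ^ ((1 : ℝ) / 2560) := (le_max_left _ _).trans hbb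
  have h22 := hb2 x hx2'
  obtain ⟨r2, rN, rR0, rR0R, rRN, rRg, rRg2, rS⟩ := NumN_size δ κ ε x g M N R S R0 hε6 hε0 hκ0 hκ hxx h64 hB hg8 hR0 hR0'
  obtain ⟨⟨hN1, hN2, hMN1, hMN2⟩, hS1, hR1, hR2, hRS1, hRS2⟩ := hB
  have hNpos : (0 : ℝ) < N := by exact_mod_cast rN
  obtain ⟨p1, p2, p3⟩ := NumN_ep θ x g R N R0 hθ0 hθ1 hxx h64 hg hR rRg hR0
  obtain ⟨f1, f2, f3, f4⟩ := NumN_far δ ε x C2 g H N R S R0 k hk hδ hε6 hε0 hxx hC2 h64 hC hR rRg hg8 hH31 hR0 rR0 hRS1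
  have hfin := NumN_fin κ ε θ x (epn θ x g R N R0) S R0 hκ0 hκ hθ0 hθ1 hεθ hxx p1 p2 rS hR0'
  refine ⟨⟨r2, hS1, rN, rR0, rR0R, rRN, ?_, ?_, ?_, ?_⟩, ⟨?_, ?_, ?_, ?_, ?_⟩, f1, f2, f3, f4, p3, hfin⟩
  · exact Nat.le_floor (by
      rw [Nat.cast_one]
      exact Real.one_le_rpow hxx (by norm_num))
  · have h1 : (2 : ℝ) * (R * g) ≤ N := by
      have h2 : x ^ (-(2 * ε)) * 2 ≤ 1 := by
        rw [Real.rpow_neg hx0.le]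
        have h3 : 0 < x ^ (2 * ε) := Real.rpow_pos_of_pos hx0 _
        rw [inv_mul_le_iff₀ h3]
        linarith
      calc (2 : ℝ) * (R * g) ≤ 2 * (N * x ^ (-(2 * ε))) := mul_le_mul_of_nonneg_left rRg2 (by norm_num)
        _ = N * (x ^ (-(2 * ε)) * 2) := by ring
        _ ≤ N := mul_le_of_le_one_right hNpos.le h2
    have h3 : ((2 * R * g : ℕ) : ℝ) ≤ (N : ℝ) := by
      push_cast
      linarith
    exact_mod_cast h3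
  · have h1 : (8 : ℝ) ≤ R0 := by
      have h2 : x ^ ((1 : ℝ) / 2560) ≤ x ^ ((1 : ℝ) / 80) := Real.rpow_le_rpow_of_exponent_le hxx (by norm_num)
      linarith
    have h3 : ((8 * R ^ 2 * g : ℕ) : ℝ) ≤ ((R0 * N ^ 2 : ℕ) : ℝ) := by
      push_cast
      calc (8 : ℝ) * (R : ℝ) ^ 2 * g = 8 * ((R : ℝ) ^ 2 * g) := by ring
        _ ≤ R0 * (N : ℝ) ^ 2 := mul_le_mul h1 rRg (by positivity) (by positivity)
    exact_mod_cast h3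
  · have hRr : (1 : ℝ) ≤ R := by exact_mod_cast hR
    have hSr : (1 : ℝ) ≤ S := by exact_mod_cast hS1
    have hNr : (1 : ℝ) ≤ N := by exact_mod_cast rN
    have hHr : (1 : ℝ) ≤ H := by exact_mod_cast hH
    have hA : 1 ≤ (R : ℝ) * (S : ℝ) ^ 2 := one_le_mul_of_one_le_of_one_le hRr (one_le_pow₀ hSr)
    have hNH : 1 ≤ (N : ℝ) * H := one_le_mul_of_one_le_of_one_le hNr hHr
    have hle : (R : ℝ) * (S : ℝ) ^ 2 ≤ (R : ℝ) * (S : ℝ) ^ 2 * (N * H) := le_mul_of_one_le_right (by linarith) hNH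
    have e1 : 2 * (R : ℝ) * (S : ℝ) ^ 2 * N * H = 2 * ((R : ℝ) * (S : ℝ) ^ 2 * (N * H)) := by ring
    have := NumN_30 (2 * (R : ℝ) * (S : ℝ) ^ 2 * N * H) (x ^ (30 : ℝ)) (by rw [e1]; linarith) h12
    rw [e1] at this
    linarith
  · exact Real.one_le_rpow hxx (by norm_num)
  · exact Real.one_le_rpow hxx (by norm_num)
  · exact Real.one_le_rpow hxx (by norm_num)
  · exact Real.rpow_pos_of_pos hx0 _
  · have h1 : (x ^ (-θ)) ^ (2 ^ (k + 1)) = x ^ (-((1 : ℝ) / 1280)) := by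
      rw [← Real.rpow_mul_natCast hx0.le]
      congr 1
      rw [neg_mul, hθk]
    rw [h1, ← Real.rpow_add hx0]
    simp

end Pool.Agent.Lib.NLB
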