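import Pool.Agent.Lib.NLS.AllS
import Pool.Agent.Lib.SLG.AllL
import Pool.Agent.Lib.SLG.AllM
import Pool.Agent.Lib.SLN.PhN
import Pool.Agent.Lib.SLN.PbF
import Pool.Agent.Lib.NLB.NumN
import Pool.Agent.Lib.NLB.BinN

/-! MP_00e23e_nt, Lib/NLB: the bound of the sums TG of project NL, without hypotheses (glue; helper34). -/

namespace Pool.Agent.Lib.NLB

theorem aBinN : BinNStmt :=
  tBinN NLS.aSecN (SLN.tPbT SLN.tPhN SLG.aLtr) (SLN.tPbF SLN.tPhN SLG.aLfiT) tNumN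

end Pool.Agent.Lib.NLB
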