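import Pool.Agent.Lib.NLB.Spec

/-!
MP_00e23e_nt, project NL, chapter B: module BdiN, dispersion with all g (MODEL: Lib/SLB/BdiH.lean).
-/

set_option autoImplicit false

namespace Pool.Agent.Lib.NLB

open Finset Pool.Agent.Lib.EH3 Pool.Agent.Lib.TB Pool.Agent.Results.MP_00e23e_nt Pool.Agent.Lib.MI
open Pool.Agent.Lib.MX (Bd Mz Bd_nonneg Bd_mono rp_le rn_le log_le_T Tau_x)

private lemma BdiN_Hg (a : ℕ → ℕ → ℤ) (g R S N Hm Hm' t0 : ℕ) (P : Finset (ℕ × ℕ)) (D E : ℝ)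
    (hle : Hm ≤ Hm') (h : HgN a g R S N Hm' t0 P D E) : HgN a g R S N Hm t0 P D E := by
  intro H' Hs γ ω e1 e2
  exact h H' Hs γ ω e1 (e2.trans hle)

private lemma BdiN_size (X : ℝ) (R S M N G : ℕ) (hR : 1 ≤ R) (hS : 1 ≤ S) (hN : 1 ≤ N)
    (hM : 8 ≤ M) (hG : G ≤ S)
    (hX : 100 * (M : ℝ) ^ 2 * (N : ℝ) ^ 2 * (R : ℝ) ^ 2 * (S : ℝ) ^ 4 ≤ X) : (G : ℝ) ≤ X := by
  have h1 : (1 : ℝ) ≤ R := by exact_mod_cast hR
  have h2 : (1 : ℝ) ≤ S := by exact_mod_cast hS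
  have h3 : (1 : ℝ) ≤ N := by exact_mod_cast hN
  have h4 : (1 : ℝ) ≤ M := by exact_mod_cast (by omega : 1 ≤ M)
  have h5 : (G : ℝ) ≤ S := by exact_mod_cast hG
  have h6 : (S : ℝ) ≤ (S : ℝ) ^ 4 := le_self_pow₀ h2 (by norm_num)
  have h7 : 1 ≤ (M : ℝ) ^ 2 := one_le_pow₀ h4
  have h8 : 1 ≤ (N : ℝ) ^ 2 := one_le_pow₀ h3
  have h9 : 1 ≤ (R : ℝ) ^ 2 := one_le_pow₀ h1
  have h10 : 1 ≤ 100 * (M : ℝ) ^ 2 * (N : ℝ) ^ 2 * (R : ℝ) ^ 2 := by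
    have e1 : 1 ≤ (M : ℝ) ^ 2 * (N : ℝ) ^ 2 := one_le_mul_of_one_le_of_one_le h7 h8
    have e2 : 1 ≤ (M : ℝ) ^ 2 * (N : ℝ) ^ 2 * (R : ℝ) ^ 2 :=
      one_le_mul_of_one_le_of_one_le e1 h9
    have e3 : 100 * (M : ℝ) ^ 2 * (N : ℝ) ^ 2 * (R : ℝ) ^ 2 =
        100 * ((M : ℝ) ^ 2 * (N : ℝ) ^ 2 * (R : ℝ) ^ 2) := by ring
    linarith
  have h11 : (S : ℝ) ^ 4 ≤ 100 * (M : ℝ) ^ 2 * (N : ℝ) ^ 2 * (R : ℝ) ^ 2 * (S : ℝ) ^ 4 :=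
    le_mul_of_one_le_left (by positivity) h10
  linarith

/-- the chosen shift -/
private def BdiN_Y (R S M g : ℕ) : ℕ := 4 * (R * S ^ 2) / (M * g) + 1

private lemma BdiN_Y1 (R S M g : ℕ) (hM : 1 ≤ M) (hg : 1 ≤ g) :
    4 * (R * S ^ 2) ≤ M * g * BdiN_Y R S M g :=
  (Nat.lt_mul_div_succ _ (Nat.mul_pos hM hg)).le

private lemma BdiN_Y2 (R S M g : ℕ) (hM : 1 ≤ M) (hg : 1 ≤ g) :
    BdiN_Y R S M g ≤ 4 * (R * S ^ 2) / M + 1 := by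
  unfold BdiN_Y
  have : 4 * (R * S ^ 2) / (M * g) ≤ 4 * (R * S ^ 2) / M :=
    Nat.div_le_div_left (Nat.le_mul_of_pos_right M hg) hM
  omega

private lemma BdiN_Y3 (R S M g : ℕ) :
    (BdiN_Y R S M g : ℝ) ≤ 4 * (R * (S : ℝ) ^ 2) / M * (1 / (g : ℝ)) + 1 := by
  unfold BdiN_Y
  have h := Nat.cast_div_le (α := ℝ) (m := 4 * (R * S ^ 2)) (n := M * g)
  push_cast at h ⊢
  rw [mul_one_div, div_div]
  linarith

/-- the harmonic sum -/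
private lemma BdiN_harm {X T : ℝ} (hT : Tau X T) (D : ℕ) (hD1 : 1 ≤ D) (hD : (D : ℝ) ≤ X) :
    ∑ s ∈ Icc 1 D, 1 / (s : ℝ) ≤ T := by
  have h2 := harmonic_le_one_add_log D
  rw [harmonic_eq_sum_Icc] at h2
  push_cast at h2
  have hD0 : (0 : ℝ) < D := by exact_mod_cast hD1
  have h3 : Real.log D ≤ Real.log X := Real.log_le_log hD0 hD
  have h4 : ∑ s ∈ Icc 1 D, 1 / (s : ℝ) = ∑ s ∈ Icc 1 D, (s : ℝ)⁻¹ :=
    Finset.sum_congr rfl fun s _ => one_div _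
  rw [h4]
  linarith [hT.2.1]

/-- the sum of the Y g -/
private lemma BdiN_sumY {X T : ℝ} (hT : Tau X T) (R S M G : ℕ) (hG1 : 1 ≤ G) (hG : (G : ℝ) ≤ X) :
    ∑ g ∈ Icc 1 G, (BdiN_Y R S M g : ℝ) ≤ T * (4 * (R * (S : ℝ) ^ 2) / M + G) := by
  have h1 : ∑ g ∈ Icc 1 G, (BdiN_Y R S M g : ℝ) ≤
      ∑ g ∈ Icc 1 G, (4 * (R * (S : ℝ) ^ 2) / M * (1 / (g : ℝ)) + 1) :=
    Finset.sum_le_sum fun g _ => BdiN_Y3 R S M g
  have h2 : ∑ g ∈ Icc 1 G, (4 * (R * (S : ℝ) ^ 2) / M * (1 / (g : ℝ)) + 1) =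
      4 * (R * (S : ℝ) ^ 2) / M * ∑ g ∈ Icc 1 G, 1 / (g : ℝ) + G := by
    rw [Finset.sum_add_distrib, ← Finset.mul_sum, Finset.sum_const, Nat.card_Icc,
      Nat.add_sub_cancel, nsmul_eq_mul, mul_one]
  have hH := BdiN_harm hT G hG1 hG
  have hy : 0 ≤ 4 * (R * (S : ℝ) ^ 2) / M := by positivity
  have h3 := mul_le_mul_of_nonneg_left hH hy
  have h4 : (G : ℝ) ≤ T * G := by
    have := hT.1
    have hG0 : (0 : ℝ) ≤ G := Nat.cast_nonneg G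
    nlinarith
  rw [h2] at h1
  linarith [mul_comm T (4 * (R * (S : ℝ) ^ 2) / M), mul_add T (4 * (R * (S : ℝ) ^ 2) / M) (G : ℝ)]

/-- the sum of the bounds -/
private lemma BdiN_sum (R M N G : ℕ) (sD sE W T : ℝ) (F : ℕ → ℝ) (hR : 1 ≤ R) (hsD : 0 ≤ sD)
    (hsE : 0 ≤ sE) (hF : ∑ g ∈ Icc 1 G, F g ≤ T * W) :
    (R : ℝ) * M * ∑ g ∈ Icc 1 G, 32 * sD * ((M : ℝ) * (N : ℝ) ^ 2 / R) * (F g * sE) ≤
      32 * T * (sD * ((M : ℝ) ^ 2 * (N : ℝ) ^ 2) * (W * sE)) := by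
  have hR' : (R : ℝ) ≠ 0 := by
    have : (1 : ℝ) ≤ R := by exact_mod_cast hR
    positivity
  rw [← mul_sum, ← sum_mul]
  have e1 : (R : ℝ) * M * (32 * sD * ((M : ℝ) * (N : ℝ) ^ 2 / R) *
      ((∑ g ∈ Icc 1 G, F g) * sE)) = 32 * (sD * ((M : ℝ) ^ 2 * (N : ℝ) ^ 2) * sE) *
      ∑ g ∈ Icc 1 G, F g := by
    field_simp
  rw [e1]
  have e2 : 32 * T * (sD * ((M : ℝ) ^ 2 * (N : ℝ) ^ 2) * (W * sE)) =
      32 * (sD * ((M : ℝ) ^ 2 * (N : ℝ) ^ 2) * sE) * (T * W) := by ring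
  rw [e2]
  exact mul_le_mul_of_nonneg_left hF (by positivity)

private lemma BdiN_fin (C T U Z L S1 : ℝ) (A : ℕ) (hC : 0 < C) (hT : 1 ≤ T) (hU : 0 ≤ U)
    (hL : L ≤ C * T ^ A * (U + S1)) (hS : S1 ≤ 32 * T * Z) :
    L ≤ 32 * C * T ^ (A + 1) * (U + Z) := by
  have hp : 0 < C * T ^ A := by positivity
  have h1 : U + S1 ≤ 32 * T * (U + Z) := by
    have : U ≤ 32 * T * U := by nlinarith
    nlinarith
  calc L ≤ C * T ^ A * (U + S1) := hL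
    _ ≤ C * T ^ A * (32 * T * (U + Z)) := mul_le_mul_of_nonneg_left h1 hp.le
    _ = 32 * C * T ^ (A + 1) * (U + Z) := by ring

theorem tBdiN (h1 : SLH.DspTStmt) (h2 : BgaNStmt) : BdiNStmt := by
  obtain ⟨C, hC, A, hD⟩ := h1
  refine ⟨32 * C, by positivity, A + 1, ?_⟩
  intro X T z D E0 a R S M N H G t0 P f k hT hz hD0 hE0 hR hS hN hM hH hG hGS hGt hRN
    hHR hX hRS hPr hHg hf hk
  obtain ⟨B, hB⟩ : ∃ B : ℕ → ℝ, ∀ g, B g = 32 * Real.sqrt D *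
      ((M : ℝ) * (N : ℝ) ^ 2 / R) * ((BdiN_Y R S M g : ℝ) * Real.sqrt E0) := ⟨_, fun _ => rfl⟩
  have hB0 : ∀ g, 0 ≤ B g := by
    intro g
    rw [hB]
    positivity
  have key := hD X T z a R S M N H G t0 P f k B hT hz hB0 hS hN hM hG hGt hH hRN hHR hX hRS hPr hf hk
    (by
      intro g hg hgG γ ω hγ hω hωH
      rw [hB]
      refine h2 D E0 a g R S M N H (BdiN_Y R S M g) t0 P γ ω hD0 hE0 hg hR hS
        (by omega) hN (Nat.succ_le_succ (Nat.zero_le _)) (BdiN_Y1 R S M g (by omega) hg) hγ hω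
        hωH ?_
      exact BdiN_Hg a g R S N _ _ t0 P D E0
        (Nat.add_le_add_left (BdiN_Y2 R S M g (by omega) hg) _) (hHg g (mem_Icc.mpr ⟨hg, hgG⟩)))
  have hs := BdiN_sumY hT R S M G hG (BdiN_size X R S M N G hR hS hN hM hGS hX)
  have hs' := BdiN_sum R M N G (Real.sqrt D) (Real.sqrt E0) _ T _ hR (Real.sqrt_nonneg D)
    (Real.sqrt_nonneg E0) hs
  have e1 : (R : ℝ) * M * ∑ g ∈ Icc 1 G, B g = (R : ℝ) * M * ∑ g ∈ Icc 1 G,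
      32 * Real.sqrt D * ((M : ℝ) * (N : ℝ) ^ 2 / R) *
        ((BdiN_Y R S M g : ℝ) * Real.sqrt E0) := by
    congr 1
    exact sum_congr rfl fun g _ => hB g
  rw [e1] at key
  exact BdiN_fin C T _ _ _ _ A hC hT.1 (by positivity) key hs'

end Pool.Agent.Lib.NLB
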