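import Pool.Agent.Lib.NLB.Spec

/-! MP_00e23e_nt, Lib/NLB, module BfiN: the bilinear theorem of project NL (adapted from Lib/SLB/BfiH). -/

namespace Pool.Agent.Lib.NLB

open Finset Pool.Agent.Lib.EH3 Pool.Agent.Lib.TB Pool.Agent.Results.MP_00e23e_nt Pool.Agent.Lib.MI
open Pool.Agent.Lib.MX (Bd Mz Bd_nonneg Bd_mono rp_le rn_le log_le_T Tau_x)

/-- the divisors r and ρ of one modulus q -/
private lemma BfiN_div (h : BorNStmt) {q m t : ℕ} {x κ Z1 Z2 z : ℝ} (hx : 1 ≤ x) (hsq : Squarefree q) (hm : m ∣ q)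
    (ht : t ∣ q) (hmt : (m : ℝ) * t ≤ Z1) (hZ : Z1 * x ^ κ < Z2) (hκ0 : 0 ≤ κ) (hZq : Z2 < (q : ℝ)) (hZ1 : 0 ≤ Z1)
    (hsm : ∀ p : ℕ, p.Prime → p ∣ q / m → (p : ℝ) ≤ x ^ κ) (hz : ∀ p : ℕ, p.Prime → p ∣ q / t → z < p) :
    ∃ r ρ : ℕ, t ∣ r ∧ r ∣ q ∧ (r : ℝ) ≤ Z2 ∧ Z2 < r * x ^ κ ∧ (∀ p : ℕ, p.Prime → p ∣ q / r → z < p) ∧
      ρ ∣ r ∧ (ρ : ℝ) ≤ Z1 ∧ Z1 < ρ * x ^ κ ∧ (∀ p : ℕ, p.Prime → p ∣ r / ρ → (p : ℝ) ≤ x ^ κ) ∧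
      ∀ p p' : ℕ, p.Prime → p'.Prime → p ∣ r / ρ → p' ∣ q / r → p < p' := by
  have hq0 : 0 < q := Nat.pos_of_ne_zero hsq.ne_zero
  have hm0 : 0 < m := Nat.pos_of_dvd_of_pos hm hq0
  have ht0 : 0 < t := Nat.pos_of_dvd_of_pos ht hq0
  have hxk : 1 ≤ x ^ κ := Real.one_le_rpow hx hκ0
  have hc : Nat.lcm m t ∣ q := Nat.lcm_dvd hm ht
  have hmc : m ∣ Nat.lcm m t := Nat.dvd_lcm_left m t
  have htc : t ∣ Nat.lcm m t := Nat.dvd_lcm_right m t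
  have hcle : ((Nat.lcm m t : ℕ) : ℝ) ≤ Z1 := by
    refine le_trans ?_ hmt
    have : Nat.lcm m t ≤ m * t := Nat.le_of_dvd (Nat.mul_pos hm0 ht0) (Nat.lcm_dvd_mul m t)
    exact_mod_cast this
  have hZ12 : Z1 < Z2 := by
    refine lt_of_le_of_lt ?_ hZ
    nlinarith
  have hsmc : ∀ p : ℕ, p.Prime → p ∣ q / Nat.lcm m t → (p : ℝ) ≤ x ^ κ := by
    intro p hp hpd
    exact hsm p hp (hpd.trans (Nat.div_dvd_div_left hc hmc))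
  obtain ⟨r, r1, r2, r3, r4, r5⟩ := h q (Nat.lcm m t) Z2 (x ^ κ) hsq hc (hcle.trans hZ12.le) hsmc
  have hrq : r ≠ q := by
    rintro rfl
    exact absurd r3 (not_le.2 hZq)
  have r4' : Z2 < (r : ℝ) * x ^ κ := r4.resolve_left hrq
  have hr0 : 0 < r := Nat.pos_of_dvd_of_pos r2 hq0
  have hsq' : Squarefree r := hsq.squarefree_of_dvd r2
  obtain ⟨ρ, s1, s2, s3, s4, s5⟩ := h r (Nat.lcm m t) Z1 (x ^ κ) hsq' r1 hcle (by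
    intro p hp hpd
    exact hsmc p hp (hpd.trans (Nat.div_dvd_div r1 r2)))
  have hρr : ρ ≠ r := by
    rintro rfl
    have : Z2 < Z1 * x ^ κ := lt_of_lt_of_le r4' (mul_le_mul_of_nonneg_right s3 (by linarith))
    linarith
  have s4' : Z1 < (ρ : ℝ) * x ^ κ := s4.resolve_left hρr
  refine ⟨r, ρ, htc.trans r1, r2, r3, r4', ?_, s2, s3, s4', ?_, ?_⟩
  · intro p hp hpd
    exact hz p hp (hpd.trans (Nat.div_dvd_div_left r2 (htc.trans r1)))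
  · intro p hp hpd
    have h1 : r / ρ ∣ r / Nat.lcm m t := Nat.div_dvd_div_left s2 s1
    exact hsmc p hp ((hpd.trans h1).trans (Nat.div_dvd_div r1 r2))
  · intro p p' hp hp' hpd hpd'
    have h1 : r / ρ ∣ r / Nat.lcm m t := Nat.div_dvd_div_left s2 s1
    exact r5 p p' hp hp' (hpd.trans h1) hpd'

theorem tBfiN (h1 : BdsNStmt) (h2 : BorNStmt) (h3 : BgeNStmt) : BfiNStmt := by
  classical
  intro δ κ ε hP hB
  obtain ⟨⟨hδ, hδ1⟩, ⟨hκ, hκ1⟩, hp1⟩ := id hP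
  have hε : 0 < ε := lt_of_lt_of_le hκ hκ1
  obtain ⟨ηd, Cd, xd, Ad, hηd, hCd, hds⟩ := h1 δ κ ε hP hB
  obtain ⟨Cg, xg, Ag, hCg, hge⟩ := h3 δ ε hδ (by linarith) hε (by linarith)
  refine ⟨min ηd (ε / 2), Cd + Cg, max (max xd xg) 2, max Ad Ag, lt_min hηd (by linarith), by positivity, ?_⟩
  intro x T z a M N f g F t hx hT hz hzx hN hN2 hMN1 hMN2 hf hg hF hΦ
  have hxd : xd ≤ x := ((le_max_left _ _).trans (le_max_left _ _)).trans hx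
  have hxg : xg ≤ x := ((le_max_right _ _).trans (le_max_left _ _)).trans hx
  have hx2 : 2 ≤ x := (le_max_right _ _).trans hx
  have hx1 : 1 ≤ x := by linarith
  have hx1' : 1 < x := by linarith
  have hx0 : 0 < x := by linarith
  have hT1 : 1 ≤ T := hT.1
  have hpow : ∀ a b : ℝ, a ≤ b → x ^ a ≤ x ^ b := fun a b hab => Real.rpow_le_rpow_of_exponent_le hx1 hab
  have hNpos : (0 : ℝ) < N := lt_of_lt_of_le (Real.rpow_pos_of_pos hx0 _) hN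
  have hNM : N ≤ M := by
    have e1 : (N : ℝ) * N ≤ (M : ℝ) * N := by
      calc (N : ℝ) * N ≤ x ^ ((2 : ℝ) / 5 + ε) * x ^ ((2 : ℝ) / 5 + ε) :=
            mul_le_mul hN2 hN2 hNpos.le (Real.rpow_nonneg hx0.le _)
        _ = x ^ ((2 : ℝ) / 5 + ε + ((2 : ℝ) / 5 + ε)) := (Real.rpow_add hx0 _ _).symm
        _ ≤ x ^ (1 - ε) := hpow _ _ (by linarith)
        _ ≤ (M : ℝ) * N := hMN1
    have e2 : (N : ℝ) ≤ M := le_of_mul_le_mul_right e1 hNpos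
    exact_mod_cast e2
  choose! m hm1 hm2 hm3 using hΦ
  obtain ⟨Z2, hZ2⟩ : ∃ Z : ℝ, Z = N * x ^ (-(10 * ε)) := ⟨_, rfl⟩
  obtain ⟨Z1, hZ1⟩ : ∃ Z : ℝ, Z = x ^ ((1 : ℝ) / 80 + κ) := ⟨_, rfl⟩
  have hZ1p : 0 ≤ Z1 := by
    rw [hZ1]
    exact Real.rpow_nonneg hx0.le _
  have hZ2q : Z2 ≤ x ^ (1 / 2 - ε / 2) := by
    rw [hZ2]
    calc (N : ℝ) * x ^ (-(10 * ε)) ≤ x ^ ((2 : ℝ) / 5 + ε) * x ^ (-(10 * ε)) :=
          mul_le_mul_of_nonneg_right hN2 (Real.rpow_nonneg hx0.le _)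
      _ = x ^ ((2 : ℝ) / 5 + ε + -(10 * ε)) := (Real.rpow_add hx0 _ _).symm
      _ ≤ x ^ (1 / 2 - ε / 2) := hpow _ _ (by linarith)
  have hZ12 : Z1 * x ^ κ < Z2 := by
    rw [hZ1, hZ2]
    calc x ^ ((1 : ℝ) / 80 + κ) * x ^ κ = x ^ ((1 : ℝ) / 80 + κ + κ) := (Real.rpow_add hx0 _ _).symm
      _ < x ^ ((1 : ℝ) / 60 - ε + -(10 * ε)) := Real.rpow_lt_rpow_of_exponent_lt hx1' (by linarith)
      _ = x ^ ((1 : ℝ) / 60 - ε) * x ^ (-(10 * ε)) := Real.rpow_add hx0 _ _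
      _ ≤ N * x ^ (-(10 * ε)) := mul_le_mul_of_nonneg_right hN (Real.rpow_nonneg hx0.le _)
  have hex : ∀ q : ℕ, ∃ r ρ : ℕ, q ∈ F → x ^ (1 / 2 - ε / 2) < (q : ℝ) →
      (t q ∣ r ∧ r ∣ q ∧ (r : ℝ) ≤ Z2 ∧ Z2 < r * x ^ κ ∧ (∀ p : ℕ, p.Prime → p ∣ q / r → z < p) ∧
      ρ ∣ r ∧ (ρ : ℝ) ≤ Z1 ∧ Z1 < ρ * x ^ κ ∧ (∀ p : ℕ, p.Prime → p ∣ r / ρ → (p : ℝ) ≤ x ^ κ) ∧
      ∀ p p' : ℕ, p.Prime → p'.Prime → p ∣ r / ρ → p' ∣ q / r → p < p') := by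
    intro q
    by_cases hq : q ∈ F
    · by_cases hq2 : x ^ (1 / 2 - ε / 2) < (q : ℝ)
      · obtain ⟨⟨e1, e2, e3, e4, e5⟩, e6⟩ := hF q hq
        have hmt : (m q : ℝ) * t q ≤ Z1 := by
          rw [hZ1]
          calc (m q : ℝ) * t q ≤ x ^ ((1 : ℝ) / 3000) * x ^ (ε / 16) :=
                mul_le_mul (hm2 q hq) e4 (Nat.cast_nonneg _) (Real.rpow_nonneg hx0.le _)
            _ = x ^ ((1 : ℝ) / 3000 + ε / 16) := (Real.rpow_add hx0 _ _).symm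
            _ ≤ x ^ ((1 : ℝ) / 80 + κ) := hpow _ _ (by linarith)
        obtain ⟨r, ρ, hr⟩ := BfiN_div h2 hx1 e1 (hm1 q hq) e2 hmt hZ12 hκ.le (lt_of_le_of_lt hZ2q hq2) hZ1p
          (hm3 q hq) e5
        exact ⟨r, ρ, fun _ _ => hr⟩
      · exact ⟨0, 0, fun _ h => absurd h hq2⟩
    · exact ⟨0, 0, fun h => absurd h hq⟩
  choose r ρ hr using hex
  obtain ⟨F2, hF2⟩ : ∃ F2 : Finset ℕ, F2 = F.filter (fun q : ℕ => x ^ (1 / 2 - ε / 2) < (q : ℝ)) := ⟨_, rfl⟩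
  have hF2m : ∀ q ∈ F2, q ∈ F ∧ x ^ (1 / 2 - ε / 2) < (q : ℝ) := by
    intro q hq
    rw [hF2, mem_filter] at hq
    exact hq
  have hge' := hge (ε / 16) x T z a M N f g F t (fun q => r q / t q) hxg hT hz hzx hNM hN hMN1 hMN2 hf hg hF (by
    intro q hq hq2
    obtain ⟨i2, i3, i4, i5, i6⟩ := hr q hq hq2
    obtain ⟨⟨e1, e2, e3, e4, e5⟩, e6⟩ := hF q hq
    refine ⟨Nat.div_dvd_div i2 i3, ?_⟩
    rw [Nat.mul_div_cancel' i2]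
    exact i4.trans hZ2q)
  have hds' := hds x T z a M N f g F2 r ρ hxd hT hz hzx hN hN2 hMN1 hMN2 hf hg (by
    intro q hq
    obtain ⟨hq1, hq2⟩ := hF2m q hq
    obtain ⟨i2, i3, i4, i5, i6, i7, i8, i9, i10, i11⟩ := hr q hq1 hq2
    obtain ⟨⟨e1, e2, e3, e4, e5⟩, e6⟩ := hF q hq1
    have hq0 : 0 < q := Nat.pos_of_ne_zero e1.ne_zero
    have hm0 : 0 < m q := Nat.pos_of_dvd_of_pos (hm1 q hq1) hq0
    rw [hZ2] at i4 i5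
    rw [hZ1] at i8 i9
    refine ⟨⟨e1, e6, e3, hq2⟩, ⟨i3, i4, i5, i6⟩, ⟨i7, ?_, i8⟩, ?_, i10, i11⟩
    · have hxk : 0 < x ^ κ := Real.rpow_pos_of_pos hx0 _
      refine lt_of_mul_lt_mul_right ?_ hxk.le
      calc x ^ ((1 : ℝ) / 80) * x ^ κ = x ^ ((1 : ℝ) / 80 + κ) := (Real.rpow_add hx0 _ _).symm
        _ < (ρ q : ℝ) * x ^ κ := i9
    · intro p hp hpq
      have hqm : m q * (q / m q) = q := Nat.mul_div_cancel' (hm1 q hq1)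
      rw [← hqm] at hpq
      rcases (hp.dvd_mul).1 hpq with h | h
      · calc (p : ℝ) ≤ m q := by exact_mod_cast Nat.le_of_dvd hm0 h
          _ ≤ x ^ ((1 : ℝ) / 3000) := hm2 q hq1
          _ ≤ x ^ ((1 : ℝ) / 2560) := hpow _ _ (by norm_num)
      · exact (hm3 q hq1 p hp h).trans (hpow _ _ (by linarith)))
  have hsum : ∑ q ∈ F.filter (fun q : ℕ => x ^ (1 / 2 - ε / 2) < (q : ℝ)), ‖∑ m ∈ Ioc M (2 * M), ∑ n ∈ Ioc N (2 * N),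
      f m * g n * Dl (a q) (t q * (r q / t q)) (q / (t q * (r q / t q))) (m * n)‖ =
      ∑ q ∈ F2, ‖∑ m ∈ Ioc M (2 * M), ∑ n ∈ Ioc N (2 * N), f m * g n * Dl (a q) (r q) (q / r q) (m * n)‖ := by
    rw [← hF2]
    refine sum_congr rfl fun q hq => ?_
    obtain ⟨hq1, hq2⟩ := hF2m q hq
    rw [Nat.mul_div_cancel' (hr q hq1 hq2).1]
  have hge2 := hge'
  rw [hsum] at hge2
  have c1 : MX.Bd Cd Ad ηd x T z ≤ MX.Bd Cd (max Ad Ag) (min ηd (ε / 2)) x T z :=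
    Bd_mono hCd le_rfl (le_max_left _ _) (min_le_left _ _) hT1 hx0.le hz
  have c2 : MX.Bd Cg Ag (ε / 2) x T z ≤ MX.Bd Cg (max Ad Ag) (min ηd (ε / 2)) x T z :=
    Bd_mono hCg le_rfl (le_max_right _ _) (min_le_right _ _) hT1 hx0.le hz
  calc _ ≤ MX.Bd Cd (max Ad Ag) (min ηd (ε / 2)) x T z + MX.Bd Cg (max Ad Ag) (min ηd (ε / 2)) x T z :=
        hge2.trans (add_le_add (hds'.trans c1) c2)
    _ = MX.Bd (Cd + Cg) (max Ad Ag) (min ηd (ε / 2)) x T z := by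
        unfold MX.Bd
        ring

end Pool.Agent.Lib.NLB
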