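import Pool.Agent.Lib.NLB.Spec

set_option autoImplicit false

/-!
One g: admissible coefficients, weights supported on gcd(n1, n2) ≤ t0, no lock (MODEL: Lib/SLB/BgaH.lean).
-/

namespace Pool.Agent.Lib.NLB

open Finset Pool.Agent.Lib.EH3 Pool.Agent.Lib.TB Pool.Agent.Results.MP_00e23e_nt Pool.Agent.Lib.MI
open Pool.Agent.Lib.MX (Bd Mz Bd_nonneg Bd_mono rp_le rn_le log_le_T Tau_x)

theorem tBgaN (h1 : SLB.BdhStmt) : BgaNStmt := by
  intro D E0 a g R S M N H Y0 t0 P γ ω hD hE0 hg hR hS hM hN hY0 h4 hCg hω ht hHg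
  have hgR : (0 : ℝ) < g := by exact_mod_cast hg
  have hRR : (0 : ℝ) < R := by exact_mod_cast hR
  have hSR : (0 : ℝ) < S := by exact_mod_cast hS
  have hYR : (0 : ℝ) ≤ Y0 := Nat.cast_nonneg _
  set F : ℝ := Real.sqrt D * ((S : ℝ) ^ 2 * (N : ℝ) ^ 2) * (((Y0 : ℝ) / g) * Real.sqrt E0) with hF
  have hF0 : 0 ≤ F := by positivity
  have hF2 : F ^ 2 = D * ((S : ℝ) ^ 2 * (N : ℝ) ^ 2) ^ 2 * (((Y0 : ℝ) / g) ^ 2 * E0) := by
    rw [hF, mul_pow, mul_pow, mul_pow ((Y0 : ℝ) / g), Real.sq_sqrt hD, Real.sq_sqrt hE0]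
  have key := h1 a g R S M N H Y0 P γ ω F hg hR hS hM hY0 h4 hF0 hCg
    (by
      intro i Hs γ' hi hHs hγ1 hγ2
      have hpos : 1 ≤ 2 ^ i * Y0 := Nat.mul_pos (Nat.two_pow_pos i) hY0
      have hsq := hHg (2 ^ i * Y0) Hs γ' ω hpos hi hHs hγ1 hω ht
        (fun h r s1 s2 hne => ⟨(hγ2 h r s1 s2 hne).1, (hγ2 h r s1 s2 hne).2.1⟩)
      refine (pow_le_pow_iff_left₀ (norm_nonneg _) (by positivity) two_ne_zero).1
        (hsq.trans (le_of_eq ?_))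
      rw [mul_pow (2 ^ i) F 2, hF2]
      push_cast
      ring)
  refine key.trans (le_of_eq ?_)
  rw [hF]
  field_simp

end Pool.Agent.Lib.NLB
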