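import Pool.Agent.Lib.NLB.Spec

/-!
MP_00e23e_nt, project NL, chapter B: the numbers of the dispersion.
-/

set_option autoImplicit false

namespace Pool.Agent.Lib.NLB

open Finset Pool.Agent.Lib.EH3 Pool.Agent.Lib.TB Pool.Agent.Results.MP_00e23e_nt Pool.Agent.Lib.MI
open Pool.Agent.Lib.MX (Bd Mz Bd_nonneg Bd_mono rp_le rn_le log_le_T Tau_x)

private theorem BncN_gap {x ε a b c : ℝ} (hx : 1 ≤ x) (h64 : 64 ≤ x ^ ε)
    (hab : a + ε ≤ b) (hc : c ≤ 64) : c * x ^ a ≤ x ^ b := by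
  have h0 : 0 ≤ x ^ a := Real.rpow_nonneg (by linarith) a
  calc c * x ^ a ≤ x ^ ε * x ^ a := mul_le_mul_of_nonneg_right (hc.trans h64) h0
    _ = x ^ (ε + a) := (Real.rpow_add (by linarith) _ _).symm
    _ ≤ x ^ b := Real.rpow_le_rpow_of_exponent_le hx (by linarith)

private theorem BncN_fl {t : ℝ} (ht : 1 ≤ t) : t ≤ 2 * (⌊t⌋₊ : ℝ) := by
  have h1 := Nat.lt_floor_add_one t
  have h2 : 1 ≤ ⌊t⌋₊ := Nat.le_floor (by simpa using ht)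
  have h3 : (1 : ℝ) ≤ (⌊t⌋₊ : ℝ) := by exact_mod_cast h2
  linarith

/-- the sizes -/
private theorem BncN_size {x u w : ℝ} {M N R S H : ℕ} (hx : 64 ≤ x) (hu : 1 ≤ u) (huw : u ≤ w)
    (hw : 11 * w ≤ x ^ ((1 : ℝ) / 2)) (hH : (H : ℝ) ≤ w) (hM : 0 < M) (hMN : (M : ℝ) * N ≤ x)
    (hN : (N : ℝ) ≤ x ^ ((1 : ℝ) / 2)) (hRS : (R : ℝ) * (S : ℝ) ^ 2 ≤ 2 * u * M)
    (huN : 2 * u ≤ N) :
    100 * (M : ℝ) ^ 2 * (N : ℝ) ^ 2 * (R : ℝ) ^ 2 * (S : ℝ) ^ 4 ≤ x ^ (30 : ℝ) ∧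
      R * S ^ 2 ≤ M * N ∧
      ((2 * H + (4 * (R * S ^ 2) / M + 1) : ℕ) : ℝ) ≤ 11 * w ∧
      (2 * (R : ℝ) * (S : ℝ) ^ 2 * N * ((2 * H + (4 * (R * S ^ 2) / M + 1) : ℕ) : ℝ)) ^ 12 ≤
        x ^ (30 : ℝ) := by
  have hM0 : (0 : ℝ) < M := by exact_mod_cast hM
  have hx30 : x ^ (30 : ℝ) = x ^ 30 := by exact_mod_cast Real.rpow_natCast x 30
  have h1 : (R : ℝ) * (S : ℝ) ^ 2 ≤ M * N := by
    calc (R : ℝ) * (S : ℝ) ^ 2 ≤ 2 * u * M := hRS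
      _ ≤ N * M := mul_le_mul_of_nonneg_right huN hM0.le
      _ = M * N := mul_comm _ _
  have h2 : (R : ℝ) * (S : ℝ) ^ 2 ≤ x := h1.trans hMN
  have h3 : x ^ ((1 : ℝ) / 2) * x ^ ((1 : ℝ) / 2) = x := by
    rw [← Real.rpow_add (by linarith)]
    norm_num
  have h4' : ((2 * H + (4 * (R * S ^ 2) / M + 1) : ℕ) : ℝ) ≤ 11 * w := by
    have h5 : ((4 * (R * S ^ 2) / M : ℕ) : ℝ) ≤ 8 * u := by
      refine Nat.cast_div_le.trans ?_
      rw [div_le_iff₀ hM0]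
      push_cast
      linarith
    push_cast at h5 ⊢
    linarith
  refine ⟨?_, by exact_mod_cast h1, h4', ?_⟩
  · rw [hx30]
    have h4 : (M : ℝ) ^ 2 * (N : ℝ) ^ 2 * (R : ℝ) ^ 2 * (S : ℝ) ^ 4 ≤ x ^ 4 := by
      calc (M : ℝ) ^ 2 * (N : ℝ) ^ 2 * (R : ℝ) ^ 2 * (S : ℝ) ^ 4 =
            ((M : ℝ) * N) ^ 2 * ((R : ℝ) * (S : ℝ) ^ 2) ^ 2 := by ring
        _ ≤ x ^ 2 * x ^ 2 := by gcongr
        _ = x ^ 4 := by ring
    calc 100 * (M : ℝ) ^ 2 * (N : ℝ) ^ 2 * (R : ℝ) ^ 2 * (S : ℝ) ^ 4 =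
          100 * ((M : ℝ) ^ 2 * (N : ℝ) ^ 2 * (R : ℝ) ^ 2 * (S : ℝ) ^ 4) := by ring
      _ ≤ 64 ^ 26 * x ^ 4 := by gcongr; norm_num
      _ ≤ x ^ 26 * x ^ 4 := by gcongr
      _ = x ^ 30 := by ring
  · rw [hx30]
    have h4 : ((2 * H + (4 * (R * S ^ 2) / M + 1) : ℕ) : ℝ) ≤ x ^ ((1 : ℝ) / 2) := h4'.trans hw
    have h6 : 2 * (R : ℝ) * (S : ℝ) ^ 2 * N * ((2 * H + (4 * (R * S ^ 2) / M + 1) : ℕ) : ℝ) ≤
        2 * x ^ 2 := by
      calc 2 * (R : ℝ) * (S : ℝ) ^ 2 * N * ((2 * H + (4 * (R * S ^ 2) / M + 1) : ℕ) : ℝ) =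
            2 * ((R : ℝ) * (S : ℝ) ^ 2) *
              (N * ((2 * H + (4 * (R * S ^ 2) / M + 1) : ℕ) : ℝ)) := by ring
        _ ≤ 2 * x * (x ^ ((1 : ℝ) / 2) * x ^ ((1 : ℝ) / 2)) := by gcongr
        _ = 2 * x ^ 2 := by rw [h3]; ring
    calc (2 * (R : ℝ) * (S : ℝ) ^ 2 * N * ((2 * H + (4 * (R * S ^ 2) / M + 1) : ℕ) : ℝ)) ^ 12 ≤
          (2 * x ^ 2) ^ 12 := by gcongr
      _ = 2 ^ 12 * x ^ 24 := by ring
      _ ≤ 64 ^ 6 * x ^ 24 := by gcongr; norm_num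
      _ ≤ x ^ 6 * x ^ 24 := by gcongr
      _ = x ^ 30 := by ring

/-- the terms; here `t = x^ε` -/
private theorem BncN_terms {x t m n r s g h D E0 C0 z : ℝ} (hx : 0 < x) (ht : 1 ≤ t)
    (hm : 0 < m) (hn : 0 < n) (hr : 0 < r) (hs : 0 < s) (hg : 0 < g) (hh : 0 < h) (hz : 1 ≤ z)
    (hC0 : 0 ≤ C0) (hmn : m * n ≤ x) (hrn : r * t ^ 10 ≤ n)
    (hg1 : t ^ 8 ≤ 2 * g) (hg2 : g ≤ t ^ 8) (hh1 : t ^ 30 ≤ 2 * h)
    (hy : r * s ^ 2 ≤ 2 * t ^ 14 * m) (hE : E0 ≤ C0 * (t ^ 30)⁻¹) :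
    r * m ^ 2 * n + m ^ 2 * n ^ 2 / z + m ^ 2 * n ^ 2 / g + r * m * n ^ 2 * s ^ 2 / g ^ 2 +
      r ^ 2 * s ^ 4 * n ^ 2 / h + Real.sqrt D * (m ^ 2 * n ^ 2) *
        ((4 * (r * s ^ 2) / m + g) * Real.sqrt E0) ≤
      19 * (x ^ 2 * t⁻¹) + x ^ 2 * (1 / z) +
        9 * Real.sqrt C0 * Real.sqrt D * (x ^ 2 * t⁻¹) := by
  have ht0 : 0 < t := by linarith
  have hz0 : 0 < z := by linarith
  have hmn2 : (m * n) ^ 2 ≤ x ^ 2 := pow_le_pow_left₀ (by positivity) hmn 2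
  have e1 : r * m ^ 2 * n ≤ x ^ 2 * t⁻¹ := by
    rw [← div_eq_mul_inv, le_div_iff₀ ht0]
    have h1t : r * t ≤ n := by
      refine le_trans ?_ hrn
      have h2 : t ≤ t ^ 10 := le_self_pow₀ ht (by norm_num)
      exact mul_le_mul_of_nonneg_left h2 hr.le
    calc r * m ^ 2 * n * t = (r * t) * (m ^ 2 * n) := by ring
      _ ≤ n * (m ^ 2 * n) := mul_le_mul_of_nonneg_right h1t (by positivity)
      _ = (m * n) ^ 2 := by ring
      _ ≤ x ^ 2 := hmn2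
  have e2 : m ^ 2 * n ^ 2 / z ≤ x ^ 2 * (1 / z) := by
    rw [mul_one_div, ← mul_pow]
    gcongr
  have e3 : m ^ 2 * n ^ 2 / g ≤ 2 * (x ^ 2 * t⁻¹) := by
    rw [div_le_iff₀ hg, ← div_eq_mul_inv, mul_div_assoc', div_mul_eq_mul_div, le_div_iff₀ ht0]
    have h1 : t ≤ 2 * g := (le_self_pow₀ ht (by norm_num)).trans hg1
    calc m ^ 2 * n ^ 2 * t = (m * n) ^ 2 * t := by ring
      _ ≤ x ^ 2 * (2 * g) := by gcongr
      _ = 2 * x ^ 2 * g := by ring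
  have e4 : r * m * n ^ 2 * s ^ 2 / g ^ 2 ≤ 8 * (x ^ 2 * t⁻¹) := by
    rw [div_le_iff₀ (by positivity), ← div_eq_mul_inv, mul_div_assoc', div_mul_eq_mul_div,
      le_div_iff₀ ht0]
    have h1 : t ^ 16 ≤ 4 * g ^ 2 := by
      calc t ^ 16 = (t ^ 8) ^ 2 := by ring
        _ ≤ (2 * g) ^ 2 := by gcongr
        _ = 4 * g ^ 2 := by ring
    have h2 : t ^ 15 ≤ t ^ 16 := pow_le_pow_right₀ ht (by norm_num)
    calc r * m * n ^ 2 * s ^ 2 * t = (r * s ^ 2) * (m * n ^ 2 * t) := by ring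
      _ ≤ (2 * t ^ 14 * m) * (m * n ^ 2 * t) := by gcongr
      _ = 2 * (m * n) ^ 2 * t ^ 15 := by ring
      _ ≤ 2 * x ^ 2 * (4 * g ^ 2) := by
          have h3 : t ^ 15 ≤ 4 * g ^ 2 := h2.trans h1
          gcongr
      _ = 8 * x ^ 2 * g ^ 2 := by ring
  have e5 : r ^ 2 * s ^ 4 * n ^ 2 / h ≤ 8 * (x ^ 2 * t⁻¹) := by
    rw [div_le_iff₀ hh, ← div_eq_mul_inv, mul_div_assoc', div_mul_eq_mul_div, le_div_iff₀ ht0]
    have h2 : t ^ 29 ≤ t ^ 30 := pow_le_pow_right₀ ht (by norm_num)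
    calc r ^ 2 * s ^ 4 * n ^ 2 * t = (r * s ^ 2) ^ 2 * (n ^ 2 * t) := by ring
      _ ≤ (2 * t ^ 14 * m) ^ 2 * (n ^ 2 * t) := by gcongr
      _ = 4 * (m * n) ^ 2 * t ^ 29 := by ring
      _ ≤ 4 * x ^ 2 * (2 * h) := by
          have h3 : t ^ 29 ≤ 2 * h := h2.trans hh1
          gcongr
      _ = 8 * x ^ 2 * h := by ring
  have e6 : Real.sqrt D * (m ^ 2 * n ^ 2) * ((4 * (r * s ^ 2) / m + g) * Real.sqrt E0) ≤
      9 * Real.sqrt C0 * Real.sqrt D * (x ^ 2 * t⁻¹) := by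
    have hD := Real.sqrt_nonneg D
    have hC := Real.sqrt_nonneg C0
    have hs0 := Real.sqrt_nonneg E0
    have h1 : 4 * (r * s ^ 2) / m + g ≤ 9 * t ^ 14 := by
      have h2 : 4 * (r * s ^ 2) / m ≤ 8 * t ^ 14 := by
        rw [div_le_iff₀ hm]
        linarith
      have h3 : t ^ 8 ≤ t ^ 14 := pow_le_pow_right₀ ht (by norm_num)
      linarith
    have h2 : Real.sqrt E0 ≤ Real.sqrt C0 * (t ^ 15)⁻¹ := by
      calc Real.sqrt E0 ≤ Real.sqrt (C0 * (t ^ 30)⁻¹) := Real.sqrt_le_sqrt hE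
        _ = Real.sqrt C0 * Real.sqrt ((t ^ 30)⁻¹) := Real.sqrt_mul hC0 _
        _ = Real.sqrt C0 * (t ^ 15)⁻¹ := by
            rw [Real.sqrt_inv, show t ^ 30 = (t ^ 15) ^ 2 by ring, Real.sqrt_sq (by positivity)]
    have h3 : (4 * (r * s ^ 2) / m + g) * Real.sqrt E0 ≤ 9 * Real.sqrt C0 * t⁻¹ := by
      calc (4 * (r * s ^ 2) / m + g) * Real.sqrt E0 ≤
            (9 * t ^ 14) * (Real.sqrt C0 * (t ^ 15)⁻¹) := by gcongr
        _ = 9 * Real.sqrt C0 * t⁻¹ := by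
            field_simp
    have h4 : 0 ≤ 9 * Real.sqrt C0 * t⁻¹ := by positivity
    calc Real.sqrt D * (m ^ 2 * n ^ 2) * ((4 * (r * s ^ 2) / m + g) * Real.sqrt E0) ≤
          Real.sqrt D * (m ^ 2 * n ^ 2) * (9 * Real.sqrt C0 * t⁻¹) := by gcongr
      _ = Real.sqrt D * (m * n) ^ 2 * (9 * Real.sqrt C0 * t⁻¹) := by ring
      _ ≤ Real.sqrt D * x ^ 2 * (9 * Real.sqrt C0 * t⁻¹) := by gcongr
      _ = 9 * Real.sqrt C0 * Real.sqrt D * (x ^ 2 * t⁻¹) := by ring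
  linarith

theorem tBncN : BncNStmt := by
  rintro δ κ ε C0 ⟨⟨hδ0, hδ⟩, ⟨hκ0, hκ⟩, hε⟩ hC0
  have hε0 : 0 < ε := lt_of_lt_of_le hκ0 hκ
  have hsC := Real.sqrt_nonneg C0
  refine ⟨20 + 9 * Real.sqrt C0, (64 : ℝ) ^ (1 / ε), by positivity,
    Real.one_le_rpow (by norm_num) (by positivity), ?_⟩
  intro x z D E0 M N R S H G hx0x hz hD hE0 hE hb hH hG
  obtain ⟨⟨b1, b2, b3, b4⟩, b5, b6, b7, b8, b9⟩ := hb
  have hx1 : 1 ≤ x := le_trans (Real.one_le_rpow (by norm_num) (by positivity)) hx0x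
  have hx0 : 0 < x := by linarith
  have h64 : 64 ≤ x ^ ε := by
    calc (64 : ℝ) = ((64 : ℝ) ^ (1 / ε)) ^ ε := by
          rw [← Real.rpow_mul (by norm_num), one_div_mul_cancel hε0.ne', Real.rpow_one]
      _ ≤ x ^ ε := Real.rpow_le_rpow (by positivity) hx0x hε0.le
  have hx64 : 64 ≤ x := by
    refine h64.trans ?_
    calc x ^ ε ≤ x ^ (1 : ℝ) := Real.rpow_le_rpow_of_exponent_le hx1 (by linarith)
      _ = x := Real.rpow_one x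
  obtain ⟨t, ht⟩ : ∃ t : ℝ, t = x ^ ε := ⟨_, rfl⟩
  have ht64 : 64 ≤ t := by rw [ht]; exact h64
  have ht1 : 1 ≤ t := by linarith
  have ht0 : 0 < t := by linarith
  have htk : ∀ k : ℕ, t ^ k = x ^ ((k : ℝ) * ε) := by
    intro k
    rw [ht, ← Real.rpow_natCast, ← Real.rpow_mul hx0.le, mul_comm]
  have ht10 : t ^ 10 = x ^ (10 * ε) := by
    rw [htk]
    norm_num
  have ht8 : t ^ 8 = x ^ (8 * ε) := by
    rw [htk]
    norm_num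
  have ht14 : t ^ 14 = x ^ (14 * ε) := by
    rw [htk]
    norm_num
  have ht30 : t ^ 30 = x ^ (30 * ε) := by
    rw [htk]
    norm_num
  have hM0 : (0 : ℝ) ≤ M := Nat.cast_nonneg _
  have hN0 : (0 : ℝ) ≤ N := Nat.cast_nonneg _
  have hR0 : (0 : ℝ) ≤ R := Nat.cast_nonneg _
  have hS1 : (1 : ℝ) ≤ S := by exact_mod_cast b5
  have hSr : (0 : ℝ) < S := by linarith
  -- the numbers R, M, N, S
  have f1 : (N : ℝ) * x ^ (-(11 * ε)) ≤ 2 * R := by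
    refine le_trans ?_ b7
    exact mul_le_mul_of_nonneg_left (Real.rpow_le_rpow_of_exponent_le hx1 (by linarith)) hN0
  have f2 : x ^ (1 - 12 * ε) ≤ 2 * ((R : ℝ) * M) := by
    calc x ^ (1 - 12 * ε) = x ^ (1 - ε) * x ^ (-(11 * ε)) := by
          rw [← Real.rpow_add hx0]
          congr 1
          ring
      _ ≤ ((M : ℝ) * N) * x ^ (-(11 * ε)) :=
          mul_le_mul_of_nonneg_right b3 (Real.rpow_nonneg hx0.le _)
      _ = M * (N * x ^ (-(11 * ε))) := by ring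
      _ ≤ M * (2 * R) := mul_le_mul_of_nonneg_left f1 hM0
      _ = 2 * ((R : ℝ) * M) := by ring
  have f3 : ((R : ℝ) * S) ^ 2 ≤ x ^ (1 + 2 * ε) := by
    calc ((R : ℝ) * S) ^ 2 ≤ (x ^ (1 / 2 + δ)) ^ 2 := pow_le_pow_left₀ (by positivity) b8 2
      _ = x ^ (1 / 2 + δ + (1 / 2 + δ)) := by
          rw [pow_two, ← Real.rpow_add hx0]
      _ ≤ x ^ (1 + 2 * ε) := Real.rpow_le_rpow_of_exponent_le hx1 (by linarith)
  have f4 : (R : ℝ) * (S : ℝ) ^ 2 ≤ 2 * t ^ 14 * M := by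
    have h3 : (0 : ℝ) < x ^ (1 - 12 * ε) := Real.rpow_pos_of_pos hx0 _
    have h4 : x ^ (1 - 12 * ε) * t ^ 14 = x ^ (1 + 2 * ε) := by
      rw [ht14, ← Real.rpow_add hx0]
      congr 1
      ring
    have h5 : x ^ (1 - 12 * ε) * ((R : ℝ) * (S : ℝ) ^ 2) ≤ x ^ (1 - 12 * ε) * (2 * t ^ 14 * M) := by
      calc x ^ (1 - 12 * ε) * ((R : ℝ) * (S : ℝ) ^ 2) ≤
            (2 * ((R : ℝ) * M)) * ((R : ℝ) * (S : ℝ) ^ 2) :=
              mul_le_mul_of_nonneg_right f2 (by positivity)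
        _ = 2 * M * ((R : ℝ) * S) ^ 2 := by ring
        _ ≤ 2 * M * x ^ (1 + 2 * ε) := mul_le_mul_of_nonneg_left f3 (by positivity)
        _ = x ^ (1 - 12 * ε) * (2 * t ^ 14 * M) := by rw [← h4]; ring
    exact le_of_mul_le_mul_left h5 h3
  have f5 : x ^ ((1 : ℝ) / 60 - 12 * ε) ≤ 2 * (R : ℝ) := by
    calc x ^ ((1 : ℝ) / 60 - 12 * ε) = x ^ ((1 : ℝ) / 60 - ε) * x ^ (-(11 * ε)) := by
          rw [← Real.rpow_add hx0]
          congr 1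
          ring
      _ ≤ N * x ^ (-(11 * ε)) := mul_le_mul_of_nonneg_right b1 (Real.rpow_nonneg hx0.le _)
      _ ≤ 2 * R := f1
  have f6 : (R : ℝ) ≤ x ^ ((2 : ℝ) / 5 - 9 * ε) := by
    calc (R : ℝ) ≤ N * x ^ (-(10 * ε)) := b6
      _ ≤ x ^ ((2 : ℝ) / 5 + ε) * x ^ (-(10 * ε)) :=
          mul_le_mul_of_nonneg_right b2 (Real.rpow_nonneg hx0.le _)
      _ = x ^ ((2 : ℝ) / 5 - 9 * ε) := by
          rw [← Real.rpow_add hx0]
          congr 1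
          ring
  have f7 : x ^ (8 * ε) ≤ S := by
    have h1 : x ^ ((2 : ℝ) / 5 - 9 * ε) * x ^ ((1 : ℝ) / 10 + 17 / 2 * ε) = x ^ (1 / 2 - ε / 2) := by
      rw [← Real.rpow_add hx0]
      congr 1
      ring
    have h2 : (0 : ℝ) < x ^ ((2 : ℝ) / 5 - 9 * ε) := Real.rpow_pos_of_pos hx0 _
    have h3 : x ^ ((1 : ℝ) / 10 + 17 / 2 * ε) ≤ 4 * (S : ℝ) := by
      refine le_of_mul_le_mul_left ?_ h2
      rw [h1]
      calc x ^ (1 / 2 - ε / 2) ≤ 4 * ((R : ℝ) * S) := b9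
        _ = (R : ℝ) * (4 * S) := by ring
        _ ≤ x ^ ((2 : ℝ) / 5 - 9 * ε) * (4 * (S : ℝ)) :=
          mul_le_mul_of_nonneg_right f6 (by positivity)
    have h4 : 4 * x ^ (8 * ε) ≤ x ^ ((1 : ℝ) / 10 + 17 / 2 * ε) :=
      BncN_gap hx1 h64 (by linarith) (by norm_num)
    linarith
  have f8 : (N : ℝ) ≤ x ^ ((1 : ℝ) / 2) :=
    b2.trans (Real.rpow_le_rpow_of_exponent_le hx1 (by linarith))
  have f9 : 64 * x ^ (14 * ε) ≤ N := (BncN_gap hx1 h64 (by linarith) le_rfl).trans b1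
  have f10 : 64 * x ^ (30 * ε) ≤ 2 * (R : ℝ) := (BncN_gap hx1 h64 (by linarith) le_rfl).trans f5
  have g30 : 1 ≤ x ^ (30 * ε) := Real.one_le_rpow hx1 (by linarith)
  have g14 : 1 ≤ x ^ (14 * ε) := Real.one_le_rpow hx1 (by linarith)
  have g8 : 1 ≤ x ^ (8 * ε) := Real.one_le_rpow hx1 (by linarith)
  have hRr : (0 : ℝ) < R := by linarith
  have hNr : (0 : ℝ) < N := by linarith
  have hM8 : (8 : ℝ) ≤ M := by
    have h1 : x ^ ((1 : ℝ) / 2) * x ^ ((1 : ℝ) / 2 - ε) = x ^ (1 - ε) := by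
      rw [← Real.rpow_add hx0]
      congr 1
      ring
    have h2 : (0 : ℝ) < x ^ ((1 : ℝ) / 2) := Real.rpow_pos_of_pos hx0 _
    have h3 : x ^ ((1 : ℝ) / 2 - ε) ≤ M := by
      refine le_of_mul_le_mul_left ?_ h2
      rw [h1]
      calc x ^ (1 - ε) ≤ (M : ℝ) * N := b3
        _ ≤ M * x ^ ((1 : ℝ) / 2) := mul_le_mul_of_nonneg_left f8 hM0
        _ = x ^ ((1 : ℝ) / 2) * M := mul_comm _ _
    have h4 : x ^ ε ≤ x ^ ((1 : ℝ) / 2 - ε) := Real.rpow_le_rpow_of_exponent_le hx1 (by linarith)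
    linarith
  have hMr : (0 : ℝ) < M := by linarith
  have hRt : (R : ℝ) * t ^ 10 ≤ N := by
    have h1 : x ^ (-(10 * ε)) * t ^ 10 = 1 := by
      rw [ht10, ← Real.rpow_add hx0, neg_add_cancel, Real.rpow_zero]
    calc (R : ℝ) * t ^ 10 ≤ (N * x ^ (-(10 * ε))) * t ^ 10 := by gcongr
      _ = N * (x ^ (-(10 * ε)) * t ^ 10) := by ring
      _ = N := by rw [h1, mul_one]
  have hRN : (R : ℝ) ≤ N := by
    have h1 : (1 : ℝ) ≤ t ^ 10 := one_le_pow₀ ht1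
    exact (le_mul_of_one_le_right hR0 h1).trans hRt
  -- H and G
  have hH1 : 1 ≤ H := by
    rw [hH]
    exact Nat.le_floor (by simpa using g30)
  have hHle : (H : ℝ) ≤ x ^ (30 * ε) := by
    rw [hH]
    exact Nat.floor_le (by linarith)
  have hHc : t ^ 30 ≤ 2 * (H : ℝ) := by
    rw [hH, ht30]
    exact BncN_fl g30
  have hHr : (0 : ℝ) < H := by exact_mod_cast hH1
  have hG1 : 1 ≤ G := by
    rw [hG]
    exact Nat.le_floor (by simpa using g8)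
  have hGle : (G : ℝ) ≤ x ^ (8 * ε) := by
    rw [hG]
    exact Nat.floor_le (by linarith)
  have hGc : t ^ 8 ≤ 2 * (G : ℝ) := by
    rw [hG, ht8]
    exact BncN_fl g8
  have hGr : (0 : ℝ) < G := by exact_mod_cast hG1
  have hGS : G ≤ S := by exact_mod_cast hGle.trans f7
  have hGt : G ≤ ⌊x ^ ((1 : ℝ) / 320)⌋₊ := by
    rw [hG]
    exact Nat.floor_le_floor (Real.rpow_le_rpow_of_exponent_le hx1 (by linarith))
  have h2H : 2 * H < R := by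
    have h2 : (2 : ℝ) * H < R := by linarith
    exact_mod_cast h2
  obtain ⟨s1, s2, s3, s4⟩ := BncN_size (x := x) (u := t ^ 14) (w := x ^ (30 * ε)) (M := M) (N := N)
    (R := R) (S := S) (H := H) hx64 (by rw [ht14]; exact g14)
    (by rw [ht14]; exact Real.rpow_le_rpow_of_exponent_le hx1 (by linarith))
    (BncN_gap hx1 h64 (by linarith) (by norm_num)) hHle (by exact_mod_cast hMr) b4 f8 f4
    (by rw [ht14]; linarith)
  have s3' : ((2 * H + (4 * (R * S ^ 2) / M + 1) : ℕ) : ℝ) ≤ x ^ (31 * ε) :=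
    s3.trans (BncN_gap hx1 h64 (by linarith) (by norm_num))
  refine ⟨⟨by exact_mod_cast hRr, by exact_mod_cast hNr, by exact_mod_cast hM8, hH1, hG1, hGS, hGt,
    hGle, by exact_mod_cast hRN, h2H, s1, s2, s3', s4⟩, ?_⟩
  have hE' : E0 ≤ C0 * (t ^ 30)⁻¹ := by
    rw [ht30, ← Real.rpow_neg hx0.le]
    exact hE
  have hmain := BncN_terms (x := x) (t := t) (m := M) (n := N) (r := R) (s := S) (g := G) (h := H)
    (D := D) (E0 := E0) (C0 := C0) (z := z) hx0 ht1 hMr hNr hRr hSr hGr hHr hz hC0 b4 hRt hGc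
    (by rw [ht8]; exact hGle) hHc f4 hE'
  refine hmain.trans ?_
  have hz0 : 0 < z := by linarith
  have hti : t⁻¹ ≤ x ^ (-(ε / 8)) := by
    rw [ht, ← Real.rpow_neg hx0.le]
    exact Real.rpow_le_rpow_of_exponent_le hx1 (by linarith)
  obtain ⟨v, hv⟩ : ∃ v : ℝ, v = x ^ (-(ε / 8)) := ⟨_, rfl⟩
  rw [← hv] at hti ⊢
  have a0 : x ^ 2 * t⁻¹ ≤ x ^ 2 * v := mul_le_mul_of_nonneg_left hti (by positivity)
  have hv0 : 0 ≤ v := by
    rw [hv]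
    exact Real.rpow_nonneg hx0.le _
  have a1 : 0 ≤ x ^ 2 * v := by positivity
  have a2 : 0 ≤ x ^ 2 * (1 / z) := by positivity
  have a3 := Real.sqrt_nonneg D
  have a5 : 0 ≤ Real.sqrt D * (x ^ 2 * v) := by positivity
  have a6 : 0 ≤ Real.sqrt D * (x ^ 2 * (1 / z)) := by positivity
  have a7 : 0 ≤ Real.sqrt C0 * (x ^ 2 * v) := by positivity
  have a8 : 0 ≤ Real.sqrt C0 * (x ^ 2 * (1 / z)) := by positivity
  have a9 : 0 ≤ Real.sqrt C0 * (Real.sqrt D * (x ^ 2 * (1 / z))) := by positivity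
  have a10 : 9 * Real.sqrt C0 * Real.sqrt D * (x ^ 2 * t⁻¹) ≤
      9 * Real.sqrt C0 * Real.sqrt D * (x ^ 2 * v) :=
    mul_le_mul_of_nonneg_left a0 (by positivity)
  have a11 : (20 + 9 * Real.sqrt C0) * (1 + Real.sqrt D) * (x ^ 2 * (v + 1 / z)) =
      20 * (x ^ 2 * v) + 20 * (x ^ 2 * (1 / z)) + 20 * (Real.sqrt D * (x ^ 2 * v)) +
      20 * (Real.sqrt D * (x ^ 2 * (1 / z))) + 9 * (Real.sqrt C0 * (x ^ 2 * v)) +
      9 * (Real.sqrt C0 * (x ^ 2 * (1 / z))) +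
      9 * Real.sqrt C0 * Real.sqrt D * (x ^ 2 * v) +
      9 * (Real.sqrt C0 * (Real.sqrt D * (x ^ 2 * (1 / z)))) := by ring
  rw [a11]
  linarith

end Pool.Agent.Lib.NLB
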