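import Pool.Agent.Lib.NLB.Spec

/-! MP_00e23e_nt, project NL, chapter B, module BorN: initial products. -/

namespace Pool.Agent.Lib.NLB

open Finset Pool.Agent.Lib.EH3 Pool.Agent.Lib.TB Pool.Agent.Results.MP_00e23e_nt Pool.Agent.Lib.MI
open Pool.Agent.Lib.MX (Bd Mz Bd_nonneg Bd_mono rp_le rn_le log_le_T Tau_x)

/-- one step: a non-final initial product can be enlarged by the least prime of the rest -/
private theorem BorN_step {q c r : ℕ} (hq : Squarefree q) (hcr : c ∣ r) (hrq : r ∣ q) (hne : r ≠ q)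
    (hp : ∀ p p' : ℕ, p.Prime → p'.Prime → p ∣ r / c → p' ∣ q / r → p < p') :
    ∃ s : ℕ, s.Prime ∧ s ∣ q / c ∧ c ∣ r * s ∧ r * s ∣ q ∧
      ∀ p p' : ℕ, p.Prime → p'.Prime → p ∣ (r * s) / c → p' ∣ q / (r * s) → p < p' := by
  have hqpos : 0 < q := Nat.pos_of_ne_zero hq.ne_zero
  have hrpos : 0 < r := Nat.pos_of_dvd_of_pos hrq hqpos
  have hcpos : 0 < c := Nat.pos_of_dvd_of_pos hcr hrpos
  obtain ⟨e, he⟩ := hrq
  have her : q / r = e := by rw [he, Nat.mul_div_cancel_left e hrpos]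
  obtain ⟨d, hd⟩ := hcr
  have hdc : r / c = d := by rw [hd, Nat.mul_div_cancel_left d hcpos]
  have he1 : e ≠ 1 := by
    rintro rfl
    exact hne (by rw [he, mul_one])
  have hsp : e.minFac.Prime := Nat.minFac_prime he1
  obtain ⟨f, hf⟩ := Nat.minFac_dvd e
  set s := e.minFac with hs
  have hspos : 0 < s := hsp.pos
  have hqs : q = r * s * f := by rw [he, hf, mul_assoc]
  have hqf : q / (r * s) = f := by rw [hqs, Nat.mul_div_cancel_left f (Nat.mul_pos hrpos hspos)]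
  have hrsc : (r * s) / c = d * s := by
    rw [hd, mul_assoc, Nat.mul_div_cancel_left _ hcpos]
  have hqc : q / c = d * e := by
    rw [he, hd, mul_assoc, Nat.mul_div_cancel_left _ hcpos]
  refine ⟨s, hsp, ?_, ⟨d * s, ?_⟩, ⟨f, hqs⟩, ?_⟩
  · rw [hqc]
    exact Dvd.dvd.mul_left (Nat.minFac_dvd e) d
  · rw [hd, mul_assoc]
  · intro p p' hpp hpp' hpd hpd'
    rw [hrsc] at hpd
    rw [hqf] at hpd'
    have hpe : p' ∣ e := by
      rw [hf]
      exact Dvd.dvd.mul_left hpd' s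
    rcases (Nat.Prime.dvd_mul hpp).1 hpd with h | h
    · exact hp p p' hpp hpp' (by rw [hdc]; exact h) (by rw [her]; exact hpe)
    · have hps : p = s := (Nat.prime_dvd_prime_iff_eq hpp hsp).1 h
      have hle : s ≤ p' := Nat.minFac_le_of_dvd hpp'.two_le hpe
      rw [hps]
      refine lt_of_le_of_ne hle ?_
      intro hsp'
      obtain ⟨f', hf'⟩ := hpd'
      have hss : s * s ∣ q := by
        refine ⟨r * f', ?_⟩
        rw [hqs, hf', ← hsp']
        ring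
      have hu := hq s hss
      exact hsp.one_lt.ne' (Nat.isUnit_iff.1 hu)

theorem tBorN : BorNStmt := by
  intro q c Z y hq hc hcZ hy
  classical
  have hq0 : q ≠ 0 := hq.ne_zero
  have hqpos : 0 < q := Nat.pos_of_ne_zero hq0
  have hcpos : 0 < c := Nat.pos_of_dvd_of_pos hc hqpos
  set S : Finset ℕ := q.divisors.filter (fun r => c ∣ r ∧ (r : ℝ) ≤ Z ∧
    ∀ p p' : ℕ, p.Prime → p'.Prime → p ∣ r / c → p' ∣ q / r → p < p') with hS
  have hcS : c ∈ S := by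
    rw [hS, mem_filter, Nat.mem_divisors]
    refine ⟨⟨hc, hq0⟩, dvd_refl c, hcZ, ?_⟩
    intro p p' hp _ hpd _
    rw [Nat.div_self hcpos] at hpd
    exact absurd (Nat.dvd_one.1 hpd) hp.one_lt.ne'
  obtain ⟨r, hrS, hmax⟩ := exists_max_image S (fun r : ℕ => r) ⟨c, hcS⟩
  rw [hS, mem_filter, Nat.mem_divisors] at hrS
  obtain ⟨⟨hrq, _⟩, hcr, hrZ, hpr⟩ := hrS
  refine ⟨r, hcr, hrq, hrZ, ?_, hpr⟩
  by_contra hcon
  rw [not_or] at hcon
  obtain ⟨hne, hZ⟩ := hcon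
  rw [not_lt] at hZ
  obtain ⟨s, hsp, hsd, hcrs, hrsq, hprs⟩ := BorN_step hq hcr hrq hne hpr
  have hrpos : 0 < r := Nat.pos_of_dvd_of_pos hrq hqpos
  have hsy : (s : ℝ) ≤ y := hy s hsp hsd
  have hrsZ : ((r * s : ℕ) : ℝ) ≤ Z := by
    rw [Nat.cast_mul]
    exact le_trans (mul_le_mul_of_nonneg_left hsy (Nat.cast_nonneg r)) hZ
  have hmem : r * s ∈ S := by
    rw [hS, mem_filter, Nat.mem_divisors]
    exact ⟨⟨hrsq, hq0⟩, hcrs, hrsZ, hprs⟩
  have hle : r * s ≤ r := hmax (r * s) hmem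
  have h2 : r * 2 ≤ r * s := Nat.mul_le_mul_left r hsp.two_le
  omega

end Pool.Agent.Lib.NLB
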