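import Pool.Agent.Lib.SLB.AllB
import Pool.Agent.Lib.SLH.AllD
import Pool.Agent.Lib.NLA.All
import Pool.Agent.Lib.NLF.AllF
import Pool.Agent.Lib.NLB.AllT
import Pool.Agent.Lib.NLB.BgaN
import Pool.Agent.Lib.NLB.BdiN
import Pool.Agent.Lib.NLB.BncN
import Pool.Agent.Lib.NLB.BbbN
import Pool.Agent.Lib.NLB.BdsN
import Pool.Agent.Lib.NLB.BorN
import Pool.Agent.Lib.NLB.BfiN
import Pool.Agent.Lib.NLB.BdrN
import Pool.Agent.Lib.NLB.BgeV

/-! MP_00e23e_nt, project NL (all classes, no lock): everything without hypotheses (glue; helper34). -/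

namespace Pool.Agent.Lib.NLB

open Finset Pool.Agent.Lib.EH3 Pool.Agent.Lib.TB Pool.Agent.Results.MP_00e23e_nt Pool.Agent.Lib.MI
open Pool.Agent.Lib.MX (Bd Mz Bd_nonneg Bd_mono rp_le rn_le log_le_T Tau_x)

theorem aBbbN : BbbNStmt := tBbbN (tBdiN SLH.tDspT (tBgaN SLB.tBdh)) tBncN

theorem aBgeV : BgeVStmt := tBgeV MI.tBid (SL.tBrg MI.tBph) (ML.tBlg MI.tLrgAll) MI.tLrgAll

theorem aBgeN : BgeNStmt := tBgeNV MI.tBid (SL.tBrg MI.tBph) (ML.tBlg MI.tLrgAll) MI.tLrgAll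

/-- chapter B: the bilinear theorem -/
theorem aBfiN : BfiNStmt := tBfiN (tBdsN (tBdrN aBbbN) MK.tFsp) tBorN aBgeN

/-- from BiN (all small parameters) to the theorem for the von Mangoldt function -/
theorem tCoreN (h1 : BinNStmt) (h2 : BfiNStmt) (h3 : NLA.AfiStmt) :
    ∃ e : ℝ, 0 < e ∧ 100000 * e ≤ 1 ∧ SLA.CoreStmt (SmN e) (1 / 2 + e) (e / 16) := by
  obtain ⟨e0, he0, h⟩ := h1
  obtain ⟨e, he⟩ : ∃ e : ℝ, e = min e0 (1 / 100000) := ⟨_, rfl⟩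
  have e1 : 0 < e := by
    rw [he]
    exact lt_min he0 (by norm_num)
  have e2 : e ≤ e0 := by
    rw [he]
    exact min_le_left _ _
  have e3 : e ≤ 1 / 100000 := by
    rw [he]
    exact min_le_right _ _
  have hP : ParN e e e := ⟨⟨e1.le, le_rfl⟩, ⟨e1, le_rfl⟩, by linarith⟩
  refine ⟨e, e1, by linarith, h3 _ _ _ (1 / 60) (2 / 5) e ?_ (h2 e e e hP (h e e e e2 hP))⟩
  exact ⟨⟨e1, by linarith, by linarith, by linarith, by linarith⟩, ⟨by linarith, by norm_num, by norm_num, by linarith⟩,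
    by linarith, by linarith, by linarith⟩

/-- the two final forms -/
theorem tNl (h1 : BinNStmt) (h2 : BfiNStmt) (h3 : NLA.AfiStmt) :
    ∃ δ : ℝ, 0 < δ ∧ NLF.NlA (NLF.Smq (1 / 3000) δ) δ ∧ NLF.NlR (NLF.Smq (1 / 3000) δ) δ δ := by
  obtain ⟨e, he, he1, h⟩ := tCoreN h1 h2 h3
  have hA : NLF.NlA (NLF.Smq (1 / 3000) e) e := NLF.tFinAll (NLF.Smq (1 / 3000) e) e (e / 16) he.le (by linarith)
    (by linarith) (by linarith) h
  have hR : NLF.NlR (NLF.Smq (1 / 3000) e) e (e / 16) := NLF.tRonAll (NLF.Smq (1 / 3000) e) e (e / 16) he.le (by linarith)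
    (by linarith) (by linarith) h
  refine ⟨e / 16, by linarith, ?_, ?_⟩
  · exact NLF.NlA.mono (fun x q hx hq => NLF.Smq_mono le_rfl (by linarith) hx hq) (by linarith) hA
  · exact NLF.NlR.mono (fun x q hx hq => NLF.Smq_mono le_rfl (by linarith) hx hq) (by linarith) le_rfl hR

/-- THE THEOREM: all classes, no lock -/
theorem aNl : ∃ δ : ℝ, 0 < δ ∧ NLF.NlA (NLF.Smq (1 / 3000) δ) δ ∧ NLF.NlR (NLF.Smq (1 / 3000) δ) δ δ :=
  tNl aBinN aBfiN NLA.tAfiAll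

end Pool.Agent.Lib.NLB
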