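import Pool.Agent.Lib.NLB.Spec
import Pool.Agent.Lib.NLS.DefS

/-!
MP_00e23e_nt, project NL, chapter B, the numbers of the module BinN (helper28, helper3). l = 1/80: W0 = x^l, W = x^(l/4),
Z = x^(l/16), y = x^(l/32) = x^(1/2560), t0 = ⌊x^(l/4)⌋, k = 2000, θ = (l/16)/2^(k+1), Δ = x^(-θ), e0 = θ/1000.
-/

namespace Pool.Agent.Lib.NLB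

open Finset Pool.Agent.Lib.EH3 Pool.Agent.Lib.TB Pool.Agent.Results.MP_00e23e_nt Pool.Agent.Lib.MI
open Pool.Agent.Lib.MX (Bd Mz Bd_nonneg Bd_mono rp_le rn_le log_le_T Tau_x)

/-- N^2 R0/(g R^2) -/
noncomputable def Qn (g R N R0 : ℕ) : ℝ := (N : ℝ) ^ 2 * R0 / (g * (R : ℝ) ^ 2)

/-- the saving of the far pairs -/
noncomputable def epn (θ x : ℝ) (g R N R0 : ℕ) : ℝ :=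
  x ^ (-θ) + 1 / (⌊x ^ ((1 : ℝ) / 320)⌋₊ : ℝ) + 1 / x ^ ((1 : ℝ) / 320) + (⌊x ^ ((1 : ℝ) / 320)⌋₊ : ℝ) / Qn g R N R0

/-- Module NumN (theorem tNumN; pure numbers). Uses: nothing.
Proof. k = 2000, θ = (1/1280)/2^(k+1), e0 = θ/1000. κ, δ ≤ ε ≤ e0 (so ε ≤ 10^(-7)). x large (depending on δ, κ, ε, C2). R ≥ N x^(-10ε-κ)/2 ≥ x^(1/60-12ε)/2 ≥ x^(1/80+κ) ≥ R0 ≥ x^(1/80)/2. S ≥ x^(1/2-ε/2)/(4R) ≥ x^(1/2-ε/2+10ε-2/5-ε)/4 ≥ x^(1/10)/4. 2 R g ≤ 2 N x^(-2ε) ≤ N. Z Δ^(2^(k+1)) = 1.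
4 W^2R^2g ≤ 4 x^(1/160-20ε+8ε) N^2 ≤ x^(1/80) N^2/2 ≤ R0 N^2; 8 R^2 g ≤ R0 N^2 also. C2 W^2Z^2g^2H^4 ≤ C2 x^(1/160+1/640+16ε+124ε) ≤ x^(1/80). C2 (Zy)^2 = C2 x^(3/1280) ≤ x^(1/320). W/(C2 Z y) = x^(5/2560)/C2 ≥ x^(1/640); its k-th power ≥ x^(3.125) ≥ 64 x^(2+4δ) ≥ 64 (R S)^2 S^2 (S ≤ R S ≤ x^(1/2+δ)).
8 R S^2 ≤ 4 (2 R S^2 N H) ≤ (2 R S^2 N H)^12 ≤ x^30. t0 ≤ x^(1/320) ≤ x^(1/80) x^(12ε)/2 ≤ Qn (N^2/R^2 ≥ x^(20ε), g ≤ x^(8ε)); t0/Qn ≤ 2 x^(1/320-1/80). epn ≤ x^(-θ) + 2 x^(-1/320) + x^(-1/320) + 2 x^(-3/320) ≤ 6 x^(-θ), epn ≥ x^(-θ).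
(⌊x^κ⌋ + 1)^2 ≤ 4 x^(2κ); R0 sqrt(x^(1/80))/(epn S^2) ≤ 16 x^(1/80+κ+1/160+θ-1/5) ≤ 16 x^(-θ); total ≤ 4 x^(2κ) 22 x^(-θ) ≤ 88 x^(-30ε) (2κ + 30ε ≤ θ). -/
def NumNStmt : Prop := ∃ (k : ℕ) (θ e0 : ℝ), 0 < θ ∧ 0 < e0 ∧ ∀ δ κ ε C2 : ℝ, ε ≤ e0 → ParN δ κ ε → 1 ≤ C2 →
  ∃ x0 : ℝ, 1 ≤ x0 ∧ ∀ (x : ℝ) (g H M N R S R0 : ℕ), x0 ≤ x → BlkN δ κ ε x M N R S → 1 ≤ R → 1 ≤ g →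
  (g : ℝ) ≤ x ^ (8 * ε) → 1 ≤ H → (H : ℝ) ≤ x ^ (31 * ε) → x ^ ((1 : ℝ) / 80) ≤ 2 * (R0 : ℝ) →
  (R0 : ℝ) ≤ x ^ ((1 : ℝ) / 80 + κ) → (2 * (R : ℝ) * (S : ℝ) ^ 2 * N * H) ^ 12 ≤ x ^ (30 : ℝ) →
  (2 ≤ R ∧ 1 ≤ S ∧ 1 ≤ N ∧ 1 ≤ R0 ∧ R0 ≤ R ∧ R ≤ N ∧ 1 ≤ ⌊x ^ ((1 : ℝ) / 320)⌋₊ ∧ 2 * R * g ≤ N ∧
    8 * R ^ 2 * g ≤ R0 * N ^ 2 ∧ 8 * ((R : ℝ) * (S : ℝ) ^ 2) ≤ x ^ (30 : ℝ)) ∧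
  (1 ≤ x ^ ((1 : ℝ) / 80) ∧ 1 ≤ x ^ ((1 : ℝ) / 1280) ∧ 1 ≤ x ^ ((1 : ℝ) / 2560) ∧ 0 < x ^ (-θ) ∧
    1 ≤ x ^ ((1 : ℝ) / 1280) * (x ^ (-θ)) ^ (2 ^ (k + 1))) ∧
  4 * (x ^ ((1 : ℝ) / 320)) ^ 2 * (R : ℝ) ^ 2 * g ≤ R0 * (N : ℝ) ^ 2 ∧
  C2 * ((x ^ ((1 : ℝ) / 320)) ^ 2 * (x ^ ((1 : ℝ) / 1280)) ^ 2 * (g : ℝ) ^ 2 * (H : ℝ) ^ 4) ≤ x ^ ((1 : ℝ) / 80) ∧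
  C2 * (x ^ ((1 : ℝ) / 1280) * x ^ ((1 : ℝ) / 2560)) ^ 2 ≤ x ^ ((1 : ℝ) / 320) ∧
  64 * (R : ℝ) ^ 2 * (S : ℝ) ^ 4 ≤
    (R0 : ℝ) * (x ^ ((1 : ℝ) / 320) / (C2 * (x ^ ((1 : ℝ) / 1280) * x ^ ((1 : ℝ) / 2560)))) ^ k ∧
  (⌊x ^ ((1 : ℝ) / 320)⌋₊ : ℝ) ≤ Qn g R N R0 ∧
  ((⌊x ^ κ⌋₊ + 1 : ℕ) : ℝ) ^ 2 * ((R0 : ℝ) * Real.sqrt (x ^ ((1 : ℝ) / 80)) / (epn θ x g R N R0 * (S : ℝ) ^ 2) +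
    epn θ x g R N R0) ≤ 100 * x ^ (-(30 * ε))

end Pool.Agent.Lib.NLB
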