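import Pool.Agent.Lib.SLB.SpecK
import Pool.Agent.Lib.SLH.DefT
import Pool.Agent.Lib.NLA.Spec

/-!
MP_00e23e_nt, project NL (all classes, no lock; idea and note 5005: helper2), chapter B (helper34): from the dispersion method
SLH.DspTStmt and the bound BiNStmt of the sums TG to the bilinear theorem NLA.BlN for N in [x^(1/60-ε), x^(2/5+ε)], moduli
q ≤ x^(1/2+δ) with a divisor m ≤ x^(1/3000) and all primes of q/m ≤ x^κ, arbitrary reduced classes, 0 ≤ δ ≤ ε, 0 < κ ≤ ε ≤ 10^(-5).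

RULES. Module X: file Pool/Agent/Lib/NLB/X.lean, first line `import Pool.Agent.Lib.NLB.Spec`, then `namespace Pool.Agent.Lib.NLB`
and the two `open` lines below; private lemmas with names starting with X_, final theorem `theorem tX (h1 : AStmt) ... : XStmt`; the
statements listed under Uses are hypotheses of your theorem, in this order. The docstring contains a complete proof. MODEL file: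
copy it and change it. Never use congr!. Every module below 60 s.
Compared with SLB/SpecH: no lock, no colours, no v, no K; ρ r is a divisor of r in (x^(1/80), x^(1/80+κ)], a function of r; every prime
of r/ρ r is smaller than every prime of s; R ≤ N x^(-10ε); the weights ω are supported on gcd(n1, n2) ≤ t0 = ⌊x^(1/320)⌋.
-/

namespace Pool.Agent.Lib.NLB

open Finset Pool.Agent.Lib.EH3 Pool.Agent.Lib.TB Pool.Agent.Results.MP_00e23e_nt Pool.Agent.Lib.MI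
open Pool.Agent.Lib.MX (Bd Mz Bd_nonneg Bd_mono rp_le rn_le log_le_T Tau_x)

/-- the parameters -/
def ParN (δ κ ε : ℝ) : Prop := (0 ≤ δ ∧ δ ≤ ε) ∧ (0 < κ ∧ κ ≤ ε) ∧ 100000 * ε ≤ 1

/-- the sizes of a dyadic block r ∈ (R, 2R], s ∈ (S, 2S] -/
def BlkN (δ κ ε x : ℝ) (M N R S : ℕ) : Prop :=
  (x ^ ((1 : ℝ) / 60 - ε) ≤ N ∧ (N : ℝ) ≤ x ^ ((2 : ℝ) / 5 + ε) ∧ x ^ (1 - ε) ≤ (M : ℝ) * N ∧ (M : ℝ) * N ≤ x) ∧ 1 ≤ S ∧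
    (R : ℝ) ≤ N * x ^ (-(10 * ε)) ∧ (N : ℝ) * x ^ (-(10 * ε) - κ) ≤ 2 * R ∧ (R : ℝ) * S ≤ x ^ (1 / 2 + δ) ∧
    x ^ (1 / 2 - ε / 2) ≤ 4 * ((R : ℝ) * S)

/-- the data of the pairs (r, s) ∈ P: reduced classes a r s, the divisor ρ r of r, all primes of r s are ≤ x^(1/2560), those of
r/ρ r are ≤ x^κ and smaller than all primes of s -/
def PrN (κ x : ℝ) (a : ℕ → ℕ → ℤ) (ρ : ℕ → ℕ) (R S R0 : ℕ) (P : Finset (ℕ × ℕ)) : Prop :=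
  (x ^ ((1 : ℝ) / 80) ≤ 2 * (R0 : ℝ) ∧ (R0 : ℝ) ≤ x ^ ((1 : ℝ) / 80 + κ)) ∧
  ∀ w ∈ P, (R < w.1 ∧ w.1 ≤ 2 * R ∧ S < w.2 ∧ w.2 ≤ 2 * S ∧ Squarefree (w.1 * w.2) ∧
      Int.gcd (a w.1 w.2) ((w.1 * w.2 : ℕ) : ℤ) = 1) ∧
    (ρ w.1 ∣ w.1 ∧ R0 < ρ w.1 ∧ ρ w.1 ≤ 2 * R0) ∧
    (∀ p : ℕ, p.Prime → p ∣ w.1 * w.2 → (p : ℝ) ≤ x ^ ((1 : ℝ) / 2560)) ∧
    (∀ p : ℕ, p.Prime → p ∣ w.1 / ρ w.1 → (p : ℝ) ≤ x ^ κ) ∧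
    ∀ p p' : ℕ, p.Prime → p'.Prime → p ∣ w.1 / ρ w.1 → p' ∣ w.2 → p < p'

/-- the hypothesis on the sums TG for one g; weights supported on gcd(n1, n2) ≤ t0 -/
def HgN (a : ℕ → ℕ → ℤ) (g R S N Hm t0 : ℕ) (P : Finset (ℕ × ℕ)) (D E : ℝ) : Prop :=
  ∀ (H' : ℕ) (Hs : Finset ℤ) (γ : ℤ → ℕ → ℕ → ℕ → ℂ) (ω : ℕ → ℕ → ℂ), 1 ≤ H' → H' ≤ Hm →
  (∀ h ∈ Hs, h ≠ 0 ∧ |h| ≤ (H' : ℤ)) → (∀ h r s1 s2, ‖γ h r s1 s2‖ ≤ 1) → (∀ n1 n2, ‖ω n1 n2‖ ≤ 1) →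
  (∀ n1 n2, ω n1 n2 ≠ 0 → Nat.gcd n1 n2 ≤ t0) →
  (∀ h r s1 s2, γ h r s1 s2 ≠ 0 → (r, s1) ∈ P ∧ (r, s2) ∈ P) →
  ‖∑ h ∈ Hs, SL.TG a g h R S N (γ h) ω‖ ^ 2 ≤ D * ((S : ℝ) ^ 2 * (N : ℝ) ^ 2) ^ 2 * (((H' : ℝ) / g) ^ 2 * E)

/-- Module BgaN (theorem tBgaN; one g, admissible coefficients). Uses: SLB.BdhStmt. MODEL: Lib/SLB/BgaH.lean (no b, no LtK).
Proof. Bdh with E := sqrt D (S^2 N^2) (Y0/g) sqrt E0: for i, Hs, γ': HgN with H' = 2^i Y0 ≤ 2H + Y0: the square is ≤ D (S^2N^2)^2 (2^i Y0/g)^2 E0, take the root. 32 M g/(R S^2) sqrt D (S^2N^2) (Y0/g) sqrt E0 = 32 sqrt D (M N^2/R) Y0 sqrt E0. -/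
def BgaNStmt : Prop := ∀ (D E0 : ℝ) (a : ℕ → ℕ → ℤ) (g R S M N H Y0 t0 : ℕ)
    (P : Finset (ℕ × ℕ)) (γ : ℤ → ℕ → ℕ → ℕ → ℂ) (ω : ℕ → ℕ → ℂ), 0 ≤ D → 0 ≤ E0 → 1 ≤ g → 1 ≤ R → 1 ≤ S → 1 ≤ M →
  1 ≤ N → 1 ≤ Y0 → 4 * (R * S ^ 2) ≤ M * g * Y0 → SL.Cg a P g R S M N γ → (∀ n1 n2, ‖ω n1 n2‖ ≤ 1) →
  (∀ n1 n2, ω n1 n2 ≠ 0 → Nat.gcd n1 n2 ≤ t0) → HgN a g R S N (2 * H + Y0) t0 P D E0 →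
  ‖∑ h ∈ Icc (-(H : ℤ)) H, SL.TG a g h R S N (γ h) ω‖ ≤ 32 * Real.sqrt D * ((M : ℝ) * (N : ℝ) ^ 2 / R) *
    ((Y0 : ℝ) * Real.sqrt E0)

/-- Module BdiN (theorem tBdiN; dispersion with all g). Uses: SLH.DspTStmt, BgaNStmt. MODEL: Lib/SLB/BdiH.lean (DspTStmt has the
parameter t0 and the hypotheses G ≤ t0, 1 ≤ H; Bsg is replaced by the direct sum).
Proof. Y g := 4 R S^2/(M g) + 1 (natural division): 4 R S^2 ≤ M g (Y g), Y g ≤ y/g + 1 with y = 4 R S^2/M (real), Y g ≤ Y1 := 4 R S^2/M + 1 (natural). B g := 32 sqrt D (M N^2/R) (Y g) sqrt E0 for 1 ≤ g ≤ G (HgN is monotone in Hm). ∑_{g ≤ G} Y g ≤ y (1 + log G) + G ≤ T y + G ≤ T (y + G)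
(harmonic sum: Lib/SLB/Bsg.lean; G ≤ S ≤ X), R M ∑ B g ≤ 32 sqrt D M^2N^2 T (y + G) sqrt E0. -/
def BdiNStmt : Prop := ∃ C : ℝ, 0 < C ∧ ∃ A : ℕ, ∀ (X T z D E0 : ℝ) (a : ℕ → ℕ → ℤ)
    (R S M N H G t0 : ℕ) (P : Finset (ℕ × ℕ)) (f k : ℕ → ℂ), Tau X T → 1 ≤ z → 0 ≤ D → 0 ≤ E0 → 1 ≤ R → 1 ≤ S →
  1 ≤ N → 8 ≤ M → 1 ≤ H → 1 ≤ G → G ≤ S → G ≤ t0 → R ≤ N → 2 * H < R →
  100 * (M : ℝ) ^ 2 * (N : ℝ) ^ 2 * (R : ℝ) ^ 2 * (S : ℝ) ^ 4 ≤ X → R * S ^ 2 ≤ M * N → SL.Pr a R S z P →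
  (∀ g ∈ Icc 1 G, HgN a g R S N (2 * H + (4 * (R * S ^ 2) / M + 1)) t0 P D E0) →
  (∀ m, ‖f m‖ ≤ 1) → (∀ n, ‖k n‖ ≤ 1) →
  (∑ w ∈ P, ‖∑ m ∈ Ioc M (2 * M), ∑ n ∈ Ioc N (2 * N), f m * k n * Dl (a w.1 w.2) w.1 w.2 (m * n)‖) ^ 2 ≤
    C * T ^ A * ((R : ℝ) * (M : ℝ) ^ 2 * N + (M : ℝ) ^ 2 * (N : ℝ) ^ 2 / z + (M : ℝ) ^ 2 * (N : ℝ) ^ 2 / G +
      (R : ℝ) * M * (N : ℝ) ^ 2 * (S : ℝ) ^ 2 / (G : ℝ) ^ 2 + (R : ℝ) ^ 2 * (S : ℝ) ^ 4 * (N : ℝ) ^ 2 / H +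
      Real.sqrt D * ((M : ℝ) ^ 2 * (N : ℝ) ^ 2) * ((4 * (R * (S : ℝ) ^ 2) / M + G) * Real.sqrt E0))

/-- Module BncN (theorem tBncN; the numbers of the dispersion). Uses: nothing. MODEL: Lib/SLB/BncK.lean, Lib/SLB/BfaK.lean.
Proof. κ, δ ≤ ε ≤ 10^(-5). R M ≥ (N x^(-10ε-κ)/2) M ≥ x^(1-12ε)/2 and (R S)^2 ≤ x^(1+2ε), so y := R S^2/M = (R S)^2/(R M) ≤ 2 x^(14ε). N ≥ x^(1/60-ε) ≥ 64, M ≥ x^(1-ε)/N ≥ x^(1/2) ≥ 8, R ≥ N x^(-11ε)/2 ≥ x^(1/60-12ε)/2 > 2 x^(30ε) ≥ 2H, R ≤ N x^(-10ε) ≤ N, S ≥ x^(1/2-ε/2)/(4R) ≥ x^(1/2-ε/2+10ε-2/5-ε)/4 ≥ x^(1/10)/4 ≥ x^(8ε) ≥ G,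
x^(8ε) ≤ x^(1/320) (naturals: Nat.floor_le_floor) for G ≤ t0. R S^2 = y M ≤ 2 x^(14ε) M ≤ N M. 100 M^2N^2(R S^2)^2 ≤ 100 x^4 ≤ x^30. Hm := 2H + (4 R S^2/M + 1) ≤ 2 x^(30ε) + 8 x^(14ε) + 1 ≤ x^(31ε), 2 R S^2 N Hm ≤ 2 (M N) N x^(31ε) ≤ 2 x^(3/2), 2^12 x^18 ≤ x^30.
Terms (M N ≤ x): R M^2N = (MN)^2 R/N ≤ x^(2-10ε). M^2N^2/G ≤ 2 x^(2-8ε). R M N^2S^2/G^2 = (MN)^2 y/G^2 ≤ 8 x^(2+14ε-16ε). R^2S^4N^2/H = (MN)^2 y^2/H ≤ 8 x^(2+28ε-30ε). Last: (4y + G) sqrt E0 ≤ 9 x^(14ε) sqrt C0 x^(-15ε) ≤ 9 sqrt C0 x^(-ε). -/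
def BncNStmt : Prop := ∀ δ κ ε C0 : ℝ, ParN δ κ ε → 0 ≤ C0 → ∃ C x0 : ℝ, 0 ≤ C ∧ 1 ≤ x0 ∧
  ∀ (x z D E0 : ℝ) (M N R S H G : ℕ), x0 ≤ x → 1 ≤ z → 0 ≤ D → 0 ≤ E0 → E0 ≤ C0 * x ^ (-(30 * ε)) →
  BlkN δ κ ε x M N R S → H = ⌊x ^ (30 * ε)⌋₊ → G = ⌊x ^ (8 * ε)⌋₊ →
  (1 ≤ R ∧ 1 ≤ N ∧ 8 ≤ M ∧ 1 ≤ H ∧ 1 ≤ G ∧ G ≤ S ∧ G ≤ ⌊x ^ ((1 : ℝ) / 320)⌋₊ ∧ (G : ℝ) ≤ x ^ (8 * ε) ∧ R ≤ N ∧
    2 * H < R ∧ 100 * (M : ℝ) ^ 2 * (N : ℝ) ^ 2 * (R : ℝ) ^ 2 * (S : ℝ) ^ 4 ≤ x ^ (30 : ℝ) ∧ R * S ^ 2 ≤ M * N ∧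
    ((2 * H + (4 * (R * S ^ 2) / M + 1) : ℕ) : ℝ) ≤ x ^ (31 * ε) ∧
    (2 * (R : ℝ) * (S : ℝ) ^ 2 * N * ((2 * H + (4 * (R * S ^ 2) / M + 1) : ℕ) : ℝ)) ^ 12 ≤ x ^ (30 : ℝ)) ∧
  (R : ℝ) * (M : ℝ) ^ 2 * N + (M : ℝ) ^ 2 * (N : ℝ) ^ 2 / z + (M : ℝ) ^ 2 * (N : ℝ) ^ 2 / G +
      (R : ℝ) * M * (N : ℝ) ^ 2 * (S : ℝ) ^ 2 / (G : ℝ) ^ 2 + (R : ℝ) ^ 2 * (S : ℝ) ^ 4 * (N : ℝ) ^ 2 / H +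
      Real.sqrt D * ((M : ℝ) ^ 2 * (N : ℝ) ^ 2) * ((4 * (R * (S : ℝ) ^ 2) / M + G) * Real.sqrt E0) ≤
    C * (1 + Real.sqrt D) * (x ^ 2 * (x ^ (-(ε / 8)) + 1 / z))

/-- the bound of the sums TG for all g ≤ x^(8ε) -/
def BiNStmt (δ κ ε : ℝ) : Prop := ∃ (C C0 x0 : ℝ) (A : ℕ), 0 < C ∧ 0 ≤ C0 ∧
  ∀ (x T : ℝ) (a : ℕ → ℕ → ℤ) (ρ : ℕ → ℕ) (g M N R S R0 Hm : ℕ) (P : Finset (ℕ × ℕ)), x0 ≤ x →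
  Tau (x ^ (30 : ℝ)) T → BlkN δ κ ε x M N R S → 1 ≤ R → R ≤ N → 1 ≤ g → (g : ℝ) ≤ x ^ (8 * ε) →
  (Hm : ℝ) ≤ x ^ (31 * ε) → (2 * (R : ℝ) * (S : ℝ) ^ 2 * N * Hm) ^ 12 ≤ x ^ (30 : ℝ) → PrN κ x a ρ R S R0 P →
  HgN a g R S N Hm ⌊x ^ ((1 : ℝ) / 320)⌋₊ P (C * T ^ A) (C0 * x ^ (-(30 * ε)))

/-- Module BinN (theorem tBinN; the T-statement with its numbers; owner helper28). Uses: SecN (helper78), SLN.PbTStmt, SLN.PbFStmt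
(helper83); put this theorem into the file NLB/BinN.lean with these hypotheses.
Numbers. l = 1/80: W0 = x^l, W = x^(l/4), Z = x^(l/16), y = x^(l/32) = x^(1/2560), k = 2000, t0 = ⌊x^(l/4)⌋, Δ = x^(-θ) with θ = (l/16)/2^(k+1), eps = x^(-θ') (pair bound: Δ + 1/t0 + 1/W + t0 g R^2/(N^2 R0) ≤ C x^(-θ)), e0 = θ/1000. P1 = the largest prime of r/ρ r (a function of r) is ≤ x^κ: split γ into at most x^κ + 1 parts with fixed P1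
(factor 4 x^(2κ) in the square). 2 R g ≤ 2 N x^(-10ε+8ε) ≤ N. S ≥ x^(1/10)/4. C W^2Z^2g^2H^4 ≤ C x^(l/2+l/8+16ε+124ε) ≤ x^l. C (Z y)^2 = C x^(3l/16) ≤ x^(l/4). 4 W^2R^2g ≤ 4 x^(l/2+8ε) N^2 x^(-20ε) ≤ R0 N^2. 64 R^2S^4 ≤ 64 x^(2+4δ) ≤ (W/(C Z y))^k = (x^(5l/32)/C)^k, x^(5l/32)/C ≥ x^(l/8), k l/8 = 3.125. -/
def BinNStmt : Prop := ∃ e0 : ℝ, 0 < e0 ∧ ∀ δ κ ε : ℝ, ε ≤ e0 → ParN δ κ ε → BiNStmt δ κ ε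

/-- Module BbbN (theorem tBbbN; one block). Uses: BdiNStmt, BncNStmt. MODEL: Lib/SLB/BbbH.lean (simpler: no K, no V).
Proof. H = ⌊x^(30ε)⌋, G = ⌊x^(8ε)⌋, t0 = ⌊x^(1/320)⌋, Hm = 2H + (4 R S^2/M + 1). BiNStmt gives HgN with D = C1 T^A1, E0 = C0 x^(-30ε) for all g ≤ G. BdiN with X = x^30, BncN: square ≤ C T^A (1 + sqrt(C1 T^A1)) x^2 (x^(-ε/8) + 1/z); the end as in the MODEL, η = ε/16. -/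
def BbbNStmt : Prop := ∀ δ κ ε : ℝ, ParN δ κ ε → BiNStmt δ κ ε → ∃ (η C x0 : ℝ) (A0 : ℕ), 0 < η ∧ 0 ≤ C ∧
  ∀ (x T z : ℝ) (a : ℕ → ℕ → ℤ) (ρ : ℕ → ℕ) (M N R S R0 : ℕ) (P : Finset (ℕ × ℕ))
    (f g : ℕ → ℂ), x0 ≤ x → Tau (x ^ (30 : ℝ)) T → 1 ≤ z → z ≤ x → BlkN δ κ ε x M N R S →
  PrN κ x a ρ R S R0 P → SL.Pr a R S z P → (∀ m, ‖f m‖ ≤ 1) → (∀ n, ‖g n‖ ≤ 1) →
  ∑ w ∈ P, ‖∑ m ∈ Ioc M (2 * M), ∑ n ∈ Ioc N (2 * N), f m * g n * Dl (a w.1 w.2) w.1 w.2 (m * n)‖ ≤ Bd C A0 η x T z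

/-- one modulus q = r (q/r), ρ ∣ r -/
def DqN (δ κ ε x z : ℝ) (N : ℕ) (a : ℤ) (q r ρ : ℕ) : Prop :=
  (Squarefree q ∧ Int.gcd a q = 1 ∧ (q : ℝ) ≤ x ^ (1 / 2 + δ) ∧ x ^ (1 / 2 - ε / 2) < (q : ℝ)) ∧
  (r ∣ q ∧ (r : ℝ) ≤ N * x ^ (-(10 * ε)) ∧ (N : ℝ) * x ^ (-(10 * ε)) < r * x ^ κ ∧ ∀ p : ℕ, p.Prime → p ∣ q / r → z < p) ∧
  (ρ ∣ r ∧ x ^ ((1 : ℝ) / 80) < (ρ : ℝ) ∧ (ρ : ℝ) ≤ x ^ ((1 : ℝ) / 80 + κ)) ∧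
  (∀ p : ℕ, p.Prime → p ∣ q → (p : ℝ) ≤ x ^ ((1 : ℝ) / 2560)) ∧
  (∀ p : ℕ, p.Prime → p ∣ r / ρ → (p : ℝ) ≤ x ^ κ) ∧
  ∀ p p' : ℕ, p.Prime → p'.Prime → p ∣ r / ρ → p' ∣ q / r → p < p'

/-- Module BdrN (theorem tBdrN; all blocks). Uses: BbbNStmt. MODEL: Lib/SLB/BdrH.lean (no v, no colours).
Proof. Blocks by Nat.log 2 (r q - 1), Nat.log 2 (q/r q - 1), Nat.log 2 (ρ q - 1); r > x^(1/60-12ε) ≥ 3, ρ > x^(1/80) ≥ 3, s = q/r ≥ 2 (q > x^(1/2-ε/2) > r). At most (6 log x)^3 ≤ 216 T^3 blocks. BlkN, PrN for a nonempty block as in the MODEL (x^(1/80) < ρ ≤ 2R0, R0 < ρ ≤ x^(1/80+κ)). P = image of q ↦ (r q, q/r q), A n m = a (n m), ρ n = ρ q for some q ∈ F with r q = n. -/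
def BdrNStmt : Prop := ∀ δ κ ε : ℝ, ParN δ κ ε → BiNStmt δ κ ε → ∃ (η C x0 : ℝ) (A0 : ℕ), 0 < η ∧ 0 ≤ C ∧
  ∀ (x T z : ℝ) (a : ℕ → ℤ) (M N : ℕ) (f g : ℕ → ℂ) (F : Finset ℕ) (r ρ : ℕ → ℕ), x0 ≤ x →
  Tau (x ^ (30 : ℝ)) T → 1 ≤ z → z ≤ x → x ^ ((1 : ℝ) / 60 - ε) ≤ N → (N : ℝ) ≤ x ^ ((2 : ℝ) / 5 + ε) →
  x ^ (1 - ε) ≤ (M : ℝ) * N → (M : ℝ) * N ≤ x → (∀ m, ‖f m‖ ≤ 1) → (∀ n, ‖g n‖ ≤ 1) →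
  (∀ q ∈ F, DqN δ κ ε x z N (a q) q (r q) (ρ q)) → (∀ q ∈ F, ∀ q' ∈ F, r q = r q' → ρ q = ρ q') →
  ∑ q ∈ F, ‖∑ m ∈ Ioc M (2 * M), ∑ n ∈ Ioc N (2 * N), f m * g n * Dl (a q) (r q) (q / r q) (m * n)‖ ≤ Bd C A0 η x T z

/-- Module BdsN (theorem tBdsN; ρ becomes a function of r). Uses: BdrNStmt, MK.FspStmt. MODEL: Lib/SLB/BdsH.lean (case F1, one splitting).
Proof. MK.Fsp with s := ρ, t := r: ρ q ∣ r q, r q has at most T divisors: at most T parts on which ρ q is a function of r q. -/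
def BdsNStmt : Prop := ∀ δ κ ε : ℝ, ParN δ κ ε → BiNStmt δ κ ε → ∃ (η C x0 : ℝ) (A0 : ℕ), 0 < η ∧ 0 ≤ C ∧
  ∀ (x T z : ℝ) (a : ℕ → ℤ) (M N : ℕ) (f g : ℕ → ℂ) (F : Finset ℕ) (r ρ : ℕ → ℕ), x0 ≤ x →
  Tau (x ^ (30 : ℝ)) T → 1 ≤ z → z ≤ x → x ^ ((1 : ℝ) / 60 - ε) ≤ N → (N : ℝ) ≤ x ^ ((2 : ℝ) / 5 + ε) →
  x ^ (1 - ε) ≤ (M : ℝ) * N → (M : ℝ) * N ≤ x → (∀ m, ‖f m‖ ≤ 1) → (∀ n, ‖g n‖ ≤ 1) →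
  (∀ q ∈ F, DqN δ κ ε x z N (a q) q (r q) (ρ q)) →
  ∑ q ∈ F, ‖∑ m ∈ Ioc M (2 * M), ∑ n ∈ Ioc N (2 * N), f m * g n * Dl (a q) (r q) (q / r q) (m * n)‖ ≤ Bd C A0 η x T z

/-- Module BorN (theorem tBorN; initial products). Uses: nothing.
Proof. The set of the divisors r of q with c ∣ r, r ≤ Z and every prime of r/c smaller than every prime of q/r contains c; let r be its largest element. If r = q we are done. Otherwise p = (q/r).minFac; r p ∣ q, every prime of (r p)/c divides r/c or is p, every prime of q/(r p) divides q/r, is ≥ p and ≠ p (q squarefree): so by maximality Z < r p, and p ≤ y as p ∣ q/r ∣ q/c. -/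
def BorNStmt : Prop := ∀ (q c : ℕ) (Z y : ℝ), Squarefree q → c ∣ q → (c : ℝ) ≤ Z →
  (∀ p : ℕ, p.Prime → p ∣ q / c → (p : ℝ) ≤ y) →
  ∃ r : ℕ, c ∣ r ∧ r ∣ q ∧ (r : ℝ) ≤ Z ∧ (r = q ∨ Z < (r : ℝ) * y) ∧
    ∀ p p' : ℕ, p.Prime → p'.Prime → p ∣ r / c → p' ∣ q / r → p < p'

/-- Module BgeN (theorem tBgeN; comparison by the large sieve). Uses: MI.BidStmt, SL.BrgStmt, ML.BlgStmt, MI.LrgStmt.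
MODEL: Lib/SL/Bge.lean (as it is, with x^(1/60-ε) ≤ N in place of x^(1/3-ε) ≤ N; only the bracket of the large sieve uses it: sqrt(M N) sqrt M ≤ x N^(-1/2) ≤ x^(1-1/120+ε/2) ≤ x/z^(ε/2); exponent of the first parameter μ ≤ ε/2). -/
def BgeNStmt : Prop := ∀ δ ε : ℝ, 0 ≤ δ → δ ≤ 1 / 10 → 0 < ε → 1000 * ε ≤ 1 → ∃ (C x0 : ℝ) (A0 : ℕ), 0 ≤ C ∧
  ∀ (τ x T z : ℝ) (a : ℕ → ℤ) (M N : ℕ) (f g : ℕ → ℂ) (F : Finset ℕ) (t u : ℕ → ℕ), x0 ≤ x →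
  Tau (x ^ (30 : ℝ)) T → 1 ≤ z → z ≤ x → N ≤ M → x ^ ((1 : ℝ) / 60 - ε) ≤ N →
  x ^ (1 - ε) ≤ (M : ℝ) * N → (M : ℝ) * N ≤ x → (∀ m, ‖f m‖ ≤ 1) → (∀ n, ‖g n‖ ≤ 1) →
  (∀ q ∈ F, Mz (1 / 2 + δ) τ z x (t q) q ∧ Int.gcd (a q) q = 1) →
  (∀ q ∈ F, x ^ (1 / 2 - ε / 2) < (q : ℝ) → u q ∣ q / t q ∧ ((t q * u q : ℕ) : ℝ) ≤ x ^ (1 / 2 - ε / 2)) →
  ∑ q ∈ F, ‖∑ m ∈ Ioc M (2 * M), ∑ n ∈ Ioc N (2 * N), f m * g n * Ek (a q) (t q) q (m * n)‖ ≤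
    ∑ q ∈ F.filter (fun q : ℕ => x ^ (1 / 2 - ε / 2) < (q : ℝ)), ‖∑ m ∈ Ioc M (2 * M), ∑ n ∈ Ioc N (2 * N),
      f m * g n * Dl (a q) (t q * u q) (q / (t q * u q)) (m * n)‖ + Bd C A0 (ε / 2) x T z

/-- the hypothesis on the moduli: q has a divisor m ≤ x^(1/3000) and all primes of q/m are ≤ x^κ -/
def SmN (κ : ℝ) : SLA.Hyp := fun x _ _ F => ∀ q ∈ F, ∃ m : ℕ, m ∣ q ∧ (m : ℝ) ≤ x ^ ((1 : ℝ) / 3000) ∧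
  ∀ p : ℕ, p.Prime → p ∣ q / m → (p : ℝ) ≤ x ^ κ

/-- Module BfiN (theorem tBfiN; THE BILINEAR THEOREM). Uses: BdsNStmt, BorNStmt, BgeNStmt. MODEL: Lib/SLB/BfiH.lean.
Proof. N ≤ M from N ≤ x^(2/5+ε), M N ≥ x^(1-ε). m = m q by choice. For q ∈ F, q > x^(1/2-ε/2): c = lcm (m q) (t q) ≤ x^(1/3000+ε/16) ≤ x^(1/80+κ) =: Z1 ≤ N x^(-10ε) =: Z2 ≤ x^(1/2-ε/2) < q. BorN with q, c, Z2, y = x^κ (the primes of q/c divide q/m): r (r ≠ q), c ∣ r, Z2 < r x^κ, primes of r/c < primes of q/r. BorN with r, c, Z1: ρ (≠ r, since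
r x^κ > Z2 ≥ x^(1/60-11ε) and so r > Z1), c ∣ ρ ∣ r, ρ ≤ Z1 < ρ x^κ, ρ > x^(1/80). The primes of r/ρ divide r/c and q/m; primes of q: those of m are ≤ m ≤ x^(1/3000), those of q/m ≤ x^κ. t q ∣ c ∣ r, so the primes of q/r divide q/t q and are > z. u q = r/t q. BgeN, BdsN as in the MODEL. -/
def BfiNStmt : Prop := ∀ δ κ ε : ℝ, ParN δ κ ε → BiNStmt δ κ ε → NLA.BlN (SmN κ) (1 / 2 + δ) (ε / 16) (1 / 60) (2 / 5) ε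

end Pool.Agent.Lib.NLB
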